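import Pool.Agent.R49.KR.Static2

set_option autoImplicit false

open Finset
open scoped Classical

noncomputable section

namespace Pool.Agent.R49.KR

open Pool.Agent.Y415.Frac (Cl mem_Cl Cl_mono Cl_inter sum_Cl gz gz_nonneg gz_sum_le gz_sum_Cl)

variable {n : ℕ}

/-- The set of selected vertices. -/
def sel {Λ : Type} (s : Fin n → Option (Option Λ)) : Finset (Fin n) :=
  Finset.univ.filter (fun x => s x = some none)

/-- Law of the selected set. -/
theorem law {Λ : Type} [Fintype Λ] (D : Dat n Λ) {q : ℝ}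
    (h : ∀ u, q ≤ ∑ s, D.P s * D.pr u s) :
    ∃ w : Finset (Fin n) → ℝ, (∀ I, 0 ≤ w I) ∧ (∀ I, w I ≠ 0 → ∀ x ∈ I, ∀ y ∈ D.N x, y ∉ I) ∧
      (∀ v, q ≤ ∑ I ∈ Finset.univ.filter (fun I : Finset (Fin n) => v ∈ I), w I) ∧
      ∑ I, w I = 1 := by
  refine ⟨fun I => ∑ s, if sel s = I then D.P s else 0, ?_, ?_, ?_, ?_⟩
  · intro I
    apply Finset.sum_nonneg
    intro s _
    split_ifs
    · exact D.P_nonneg s
    · exact le_rfl
  · intro I hI x hx y hy hyI
    obtain ⟨s, _, hs⟩ := Finset.exists_ne_zero_of_sum_ne_zero hI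
    by_cases h1 : sel s = I
    · rw [if_pos h1] at hs
      rw [← h1, sel, Finset.mem_filter] at hx hyI
      exact D.indep s hs x hx.2 y hy hyI.2
    · rw [if_neg h1] at hs
      exact hs rfl
  · intro v
    refine (h v).trans ?_
    rw [← D.mem_in v, Finset.sum_comm]
    apply le_of_eq
    apply Finset.sum_congr rfl
    intro s _
    rw [Finset.sum_ite_eq]
    by_cases hv : s v = some none
    · rw [if_pos hv, if_pos, mul_one]
      rw [Finset.mem_filter, sel, Finset.mem_filter]
      exact ⟨Finset.mem_univ _, Finset.mem_univ _, hv⟩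
    · rw [if_neg hv, if_neg, mul_zero]
      rw [Finset.mem_filter, sel, Finset.mem_filter]
      exact fun hh => hv hh.2.2
  · rw [Finset.sum_comm]
    simp only [Finset.sum_ite_eq, Finset.mem_univ, if_true]
    exact D.P_sum

/-- The combinatorial core. -/
theorem core {N : Fin n → Finset (Fin n)} (hN : ∀ x, ∀ y ∈ N x, y < x)
    {adj : Fin n → Fin n → Prop} {d : ℕ} (hd : 0 < d) (hNd : ∀ x, (N x).card ≤ d)
    (hadj : ∀ z y, y ∈ N z → adj z y ∧ adj y z) {R : ℕ}
    (hK : ∀ u, ∀ x ∈ N u, Cl adj (R + 1) (N x ∩ N u) = ∅)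
    {η : ℕ → ℝ} (hη0 : η 0 = 1) (hηp : ∀ j, 0 < η j) (hη1 : ∀ j, η j ≤ 1) (hηm : Antitone η)
    {T : ℕ → ℝ} (hTm : Monotone T) (hT0 : T 0 = 0) {C : ℝ} (hC : 1 ≤ C)
    {thr : ℕ → ℝ}
    (hthr : ∀ j, thr j = 1 / (2 * ((R : ℝ) + 1) * (2 * ((R : ℝ) + 1) / η j) ^ 2))
    (nx : ∀ J, J ≤ R → (2 / thr J) * (4 * ((R : ℝ) + 1) ^ 2 * η (J + 1) / η J ^ 3 * C *
      Real.exp (6 * (2 * ((R : ℝ) + 1) / η J) ^ 2 * T (J + 1) + 3)) ≤
      thr J / (32 * C * ((R:ℝ) + 1) ^ 2))
    (n1 : ∀ L, L ≤ R → 8 * ((R:ℝ) + 1) *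
      (C * Real.exp (2 * (2 * ((R : ℝ) + 1) / η (L - 1)) ^ 2 * T L + 1) + 1) ≤ T (L + 1))
    (nM : C / d * (4 * Real.exp (2 * (2 * ((R : ℝ) + 1) / η R) * T (R + 1))) ≤ 1 / 4) :
    ∃ w : Finset (Fin n) → ℝ, (∀ I, 0 ≤ w I) ∧ (∀ I, w I ≠ 0 → ∀ x ∈ I, ∀ y ∈ N x, y ∉ I) ∧
      (∀ v, C / (2 * d) ≤ ∑ I ∈ Finset.univ.filter (fun I : Finset (Fin n) => v ∈ I), w I) ∧
      ∑ I, w I = 1 := by
  have hd0 : (0:ℝ) < (d:ℝ) := by positivity
  have hR : (0:ℝ) ≤ (R:ℝ) := Nat.cast_nonneg _
  let D : Dat n (Lab n R) :=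
    { N := N
      hN := hN
      EE := EEs N adj d η R
      hE := EEs_sub
      lev := le N adj d η R
      R := R
      hlev := le_le
      hEu := EEs_lev
      T := T
      thr := thr
      m := mm N d R
      m0 := mm_nonneg hd hNd
      m1 := mm_sum
      f := ff N adj d η R
      f0 := ff_nonneg
      f1 := fun v z _ => ff_one hd hη0 hηp z v
      c := C / d
      c0 := by positivity
      M := 4 * Real.exp (2 * (2 * ((R : ℝ) + 1) / η R) * T (R + 1))
      hcM := nM }
  have hΦm : Monotone (fun j => 2 * ((R : ℝ) + 1) / η j) := by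
    intro i j hij
    dsimp only
    have := hηp j
    have := hηp i
    have := hηm hij
    gcongr
  have hΦ1 : ∀ j, (1:ℝ) ≤ (fun j => 2 * ((R : ℝ) + 1) / η j) j := by
    intro j
    dsimp only
    rw [le_div_iff₀ (hηp j)]
    have := hη1 j
    linarith
  have hpair : ∀ (a b z : Fin n), D.gam (fun z σ => D.ph a z σ * D.ph b z σ) z ≤
      2 + ee2 N adj d η R b a z := by
    intro a b z
    have h0 := ee2_nonneg (N := N) (adj := adj) (d := d) (η := η) (R := R) b a z
    by_cases ha : z ∈ N a
    · by_cases hb : z ∈ N b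
      · have := pair_bound hd hη0 hηp hη1 (N := N) (adj := adj) (R := R) (z := z) (u := a)
          (x := b) (Finset.mem_inter.2 ⟨hb, ha⟩)
        have e : D.gam (fun z σ => D.ph a z σ * D.ph b z σ) z =
            ∑ l, mm N d R z l * (ff N adj d η R z a l * ff N adj d η R z b l) := by
          simp only [Dat.gam, Dat.ph]
          have ha' : z ∈ D.N a := ha
          have hb' : z ∈ D.N b := hb
          simp only [if_pos ha', if_pos hb', fc, mul_zero, zero_add]
          rfl
        rw [e]
        exact this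
      · have e : D.gam (fun z σ => D.ph a z σ * D.ph b z σ) z =
            ∑ l, mm N d R z l * ff N adj d η R z a l := by
          simp only [Dat.gam, Dat.ph]
          have ha' : z ∈ D.N a := ha
          have hb' : z ∉ D.N b := hb
          simp only [if_pos ha', if_neg hb', fc, zero_mul, mul_one, zero_add]
          rfl
        rw [e, ff_one hd hη0 hηp]
        linarith
    · by_cases hb : z ∈ N b
      · have e : D.gam (fun z σ => D.ph a z σ * D.ph b z σ) z =
            ∑ l, mm N d R z l * ff N adj d η R z b l := by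
          simp only [Dat.gam, Dat.ph]
          have ha' : z ∉ D.N a := ha
          have hb' : z ∈ D.N b := hb
          simp only [if_neg ha', if_pos hb', fc, mul_zero, one_mul, zero_add]
          rfl
        rw [e, ff_one hd hη0 hηp]
        linarith
      · have e : D.gam (fun z σ => D.ph a z σ * D.ph b z σ) z =
            1 + ∑ l, mm N d R z l := by
          simp only [Dat.gam, Dat.ph]
          have ha' : z ∉ D.N a := ha
          have hb' : z ∉ D.N b := hb
          simp only [if_neg ha', if_neg hb', mul_one]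
          rfl
        rw [e, mm_sum]
        linarith
  have s2 : ∀ u, ∀ x ∈ D.N u, ∀ z,
      D.gam (fun z σ => D.ph u z σ * D.ph x z σ) z ≤
        2 + e2 D (fun j => 2 * ((R : ℝ) + 1) / η j) x u z := fun u x _ z => hpair u x z
  have s3 : ∀ u, ∀ x ∈ D.N u, ∀ y ∈ D.N x ∩ D.N u, ∀ z,
      D.gam (fun z σ => D.ph u z σ * D.ph x z σ * D.ph y z σ) z ≤
        2 + (e2 D (fun j => 2 * ((R : ℝ) + 1) / η j) x u z +
          e2 D (fun j => 2 * ((R : ℝ) + 1) / η j) y u z +
          e2 D (fun j => 2 * ((R : ℝ) + 1) / η j) y x z) := by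
    intro u x _ y _ z
    change D.gam (fun z σ => D.ph u z σ * D.ph x z σ * D.ph y z σ) z ≤
      2 + (ee2 N adj d η R x u z + ee2 N adj d η R y u z + ee2 N adj d η R y x z)
    have h1 := ee2_nonneg (N := N) (adj := adj) (d := d) (η := η) (R := R) x u z
    have h2 := ee2_nonneg (N := N) (adj := adj) (d := d) (η := η) (R := R) y u z
    have h3 := ee2_nonneg (N := N) (adj := adj) (d := d) (η := η) (R := R) y x z
    have p1 := hpair u x z
    have p2 := hpair u y z
    have p3 := hpair x y z
    by_cases hu : z ∈ N u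
    · by_cases hx : z ∈ N x
      · by_cases hy : z ∈ N y
        · have := triple_bound hd hη0 hηp (N := N) (adj := adj) (R := R) (z := z) (u := u)
            (x := x) (y := y) (Finset.mem_inter.2 ⟨hx, hu⟩)
          have e : D.gam (fun z σ => D.ph u z σ * D.ph x z σ * D.ph y z σ) z =
              ∑ l, mm N d R z l *
                (ff N adj d η R z u l * ff N adj d η R z x l * ff N adj d η R z y l) := by
            simp only [Dat.gam, Dat.ph]
            have hu' : z ∈ D.N u := hu
            have hx' : z ∈ D.N x := hx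
            have hy' : z ∈ D.N y := hy
            simp only [if_pos hu', if_pos hx', if_pos hy', fc, mul_zero, zero_add]
            rfl
          rw [e]
          linarith
        · have e : D.gam (fun z σ => D.ph u z σ * D.ph x z σ * D.ph y z σ) z =
              D.gam (fun z σ => D.ph u z σ * D.ph x z σ) z := by
            simp only [Dat.gam, Dat.ph]
            have hy' : z ∉ D.N y := hy
            simp only [if_neg hy', mul_one]
          rw [e]
          linarith
      · have e : D.gam (fun z σ => D.ph u z σ * D.ph x z σ * D.ph y z σ) z =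
            D.gam (fun z σ => D.ph u z σ * D.ph y z σ) z := by
          simp only [Dat.gam, Dat.ph]
          have hx' : z ∉ D.N x := hx
          simp only [if_neg hx', mul_one]
        rw [e]
        linarith
    · have e : D.gam (fun z σ => D.ph u z σ * D.ph x z σ * D.ph y z σ) z =
          D.gam (fun z σ => D.ph x z σ * D.ph y z σ) z := by
        simp only [Dat.gam, Dat.ph]
        have hu' : z ∉ D.N u := hu
        simp only [if_neg hu', one_mul]
      rw [e]
      linarith
  have s22 : ∀ v z, D.gam (fun z σ => D.ph v z σ * D.ph v z σ) z ≤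
      2 + (if z ∈ D.N v then 2 * (fun j => 2 * ((R : ℝ) + 1) / η j) D.R else 0) := by
    intro v z
    by_cases hv : z ∈ D.N v
    · rw [if_pos hv]
      have e : D.gam (fun z σ => D.ph v z σ * D.ph v z σ) z =
          ∑ l, mm N d R z l * (ff N adj d η R z v l * ff N adj d η R z v l) := by
        simp only [Dat.gam, Dat.ph]
        simp only [if_pos hv, fc, mul_zero, zero_add]
        rfl
      rw [e]
      refine (self_bound hd hη0 hηp z v).trans ?_
      have h1 := hΦm (le_le (N := N) (adj := adj) (d := d) (η := η) (R := R) z v)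
      dsimp only at h1 ⊢
      have : D.R = R := rfl
      rw [this]
      linarith
    · rw [if_neg hv]
      have e : D.gam (fun z σ => D.ph v z σ * D.ph v z σ) z = 1 + ∑ l, mm N d R z l := by
        simp only [Dat.gam, Dat.ph]
        simp only [if_neg hv, mul_one]
        rfl
      rw [e, mm_sum]
      norm_num
  have hNd' : ∀ x, ((D.N x).card : ℝ) ≤ (d:ℝ) := fun x => by exact_mod_cast hNd x
  have hcd : D.c * (d:ℝ) = C := div_mul_cancel₀ C hd0.ne'
  exact law D (fun u => M6 (D := D) (Φ := fun j => 2 * ((R : ℝ) + 1) / η j) hΦm hΦ1 hthr hT0 hTm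
    s2 s3 s22 hd0 hC hcd hNd' (θ := fun J => 4 * ((R : ℝ) + 1) ^ 2 * η (J + 1) / η J ^ 3)
    (fun u x hx J hl hJ => EEs_card hd hηp hadj hK hx hl hJ) nx n1 le_rfl u)

end Pool.Agent.R49.KR
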