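import Pool.Agent.R49.KR.Proc

set_option autoImplicit false

open Finset
open scoped Classical

noncomputable section

namespace Pool.Agent.R49.KR

variable {n : ℕ} {Λ : Type} [Fintype Λ]

/-- Mass of the exceptional set of level `j`. -/
def Dat.ms (D : Dat n Λ) (j : ℕ) (x u : Fin n) (s : Fin n → Option (Option Λ)) : ℝ :=
  ∑ z ∈ D.EE j x u, D.pr z s

theorem Dat.ms_nonneg (D : Dat n Λ) (j : ℕ) (x u : Fin n) (s : Fin n → Option (Option Λ)) :
    0 ≤ D.ms j x u s := Finset.sum_nonneg fun z _ => D.pr_nonneg z s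

/-- goodness in the process -/
def Dat.G (D : Dat n Λ) (u x : Fin n) (s : Fin n → Option (Option Λ)) : Prop :=
  GB D.N D.EE D.lev D.R D.T D.thr (fun y => D.pr y s) u x

/-- badness in the process -/
def Dat.B (D : Dat n Λ) (x u : Fin n) (s : Fin n → Option (Option Λ)) : Prop :=
  Bad D.EE D.lev D.R D.thr (fun y => D.pr y s) x u

theorem Dat.G_mono (D : Dat n Λ) {u x y : Fin n} {s : Fin n → Option (Option Λ)} (hyx : y ≤ x)
    (h : D.G u x s) : D.G u y s := GB_mono (fun y => D.pr_nonneg y s) hyx h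

theorem Dat.ms_of_not_B (D : Dat n Λ) {x u : Fin n} {s : Fin n → Option (Option Λ)}
    (h : ¬ D.B x u s) (j : ℕ) (h1 : D.lev x u ≤ j) (h2 : j ≤ D.R) : D.ms j x u s ≤ D.thr j := by
  by_contra hcon
  exact h ⟨j, h1, h2, not_le.1 hcon⟩

theorem Dat.sum_ms (D : Dat n Λ) (x u : Fin n) (s : Fin n → Option (Option Λ)) (K : ℕ) :
    ∑ j ∈ Finset.range K, D.ms j x u s ≤
      ∑ y ∈ (D.N u).filter (fun y => D.lev y u < K ∧ y < x), D.pr y s := by
  unfold Dat.ms
  rw [← Finset.sum_biUnion]
  · apply Finset.sum_le_sum_of_subset_of_nonneg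
    · intro z hz
      rw [Finset.mem_biUnion] at hz
      obtain ⟨j, hj, hz⟩ := hz
      have h1 := Finset.mem_inter.1 (D.hE j x u hz)
      rw [Finset.mem_filter]
      refine ⟨h1.2, ?_, D.hN x z h1.1⟩
      rw [(D.hEu j x u z hz).1]
      exact Finset.mem_range.1 hj
    · intro z _ _
      exact D.pr_nonneg z s
  · intro i _ j _ hij
    rw [Function.onFun, Finset.disjoint_left]
    intro z hz1 hz2
    exact hij (((D.hEu i x u z hz1).1).symm.trans (D.hEu j x u z hz2).1)

section
variable {D : Dat n Λ} {Φ : ℕ → ℝ} (hΦm : Monotone Φ) (hΦ1 : ∀ j, 1 ≤ Φ j)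
  (hthr : ∀ j, D.thr j = 1 / (2 * ((D.R : ℝ) + 1) * Φ j ^ 2)) (hT0 : D.T 0 = 0)
  (hTm : Monotone D.T)

include hΦm hΦ1 hthr hT0 in
theorem expo {x u : Fin n} {s : Fin n → Option (Option Λ)} (hG : D.G u x s) (k : ℕ)
    (hk : k ≤ D.R + 1) (hms : ∀ j, k ≤ j → j ≤ D.R → D.ms j x u s ≤ D.thr j) :
    ∑ j ∈ Finset.range (D.R + 1), 2 * Φ j ^ 2 * D.ms j x u s ≤
      2 * Φ (k - 1) ^ 2 * D.T k + 1 := by
  have hR : (0:ℝ) < (D.R:ℝ) + 1 := by positivity
  rw [Finset.range_eq_Ico, ← Finset.sum_Ico_consecutive _ (Nat.zero_le k) hk]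
  apply add_le_add
  · rcases Nat.eq_zero_or_pos k with h0 | h0
    · subst h0
      rw [Finset.Ico_self, Finset.sum_empty, hT0, mul_zero]
    · calc ∑ j ∈ Finset.Ico 0 k, 2 * Φ j ^ 2 * D.ms j x u s
          ≤ ∑ j ∈ Finset.Ico 0 k, 2 * Φ (k - 1) ^ 2 * D.ms j x u s := by
            apply Finset.sum_le_sum
            intro j hj
            rw [Finset.mem_Ico] at hj
            apply mul_le_mul_of_nonneg_right _ (D.ms_nonneg j x u s)
            have h1 : Φ j ≤ Φ (k - 1) := hΦm (by omega)
            have h2 := hΦ1 j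
            nlinarith
        _ = 2 * Φ (k - 1) ^ 2 * ∑ j ∈ Finset.range k, D.ms j x u s := by
            rw [← Finset.mul_sum, Finset.range_eq_Ico]
        _ ≤ _ := by
            apply mul_le_mul_of_nonneg_left _ (by positivity)
            exact (D.sum_ms x u s k).trans (hG.1 k hk)
  · calc ∑ j ∈ Finset.Ico k (D.R + 1), 2 * Φ j ^ 2 * D.ms j x u s
        ≤ ∑ j ∈ Finset.Ico k (D.R + 1), 1 / ((D.R:ℝ) + 1) := by
          apply Finset.sum_le_sum
          intro j hj
          rw [Finset.mem_Ico] at hj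
          have h1 := hms j hj.1 (by omega)
          rw [hthr] at h1
          have h2 : 0 < Φ j := by linarith [hΦ1 j]
          calc 2 * Φ j ^ 2 * D.ms j x u s ≤ 2 * Φ j ^ 2 * (1 / (2 * ((D.R : ℝ) + 1) * Φ j ^ 2)) :=
                mul_le_mul_of_nonneg_left h1 (by positivity)
            _ = 1 / ((D.R:ℝ) + 1) := by field_simp
      _ ≤ 1 := by
          rw [Finset.sum_const, Nat.card_Ico, nsmul_eq_mul, mul_one_div, div_le_one hR]
          have : ((D.R + 1 - k : ℕ) : ℝ) ≤ ((D.R + 1 : ℕ) : ℝ) := by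
            exact_mod_cast Nat.sub_le _ _
          push_cast at this
          exact this

/-- exponent function for a pair -/
def e2 (D : Dat n Λ) (Φ : ℕ → ℝ) (x u z : Fin n) : ℝ :=
  ∑ j ∈ Finset.range (D.R + 1), (if z ∈ D.EE j x u then 2 * Φ j ^ 2 else 0)

theorem sum_e2 (D : Dat n Λ) (Φ : ℕ → ℝ) (x u : Fin n) (s : Fin n → Option (Option Λ)) :
    ∑ z, D.pr z s * e2 D Φ x u z =
      ∑ j ∈ Finset.range (D.R + 1), 2 * Φ j ^ 2 * D.ms j x u s := by
  unfold e2 Dat.ms
  simp only [Finset.mul_sum]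
  rw [Finset.sum_comm]
  apply Finset.sum_congr rfl
  intro j _
  have : ∀ z, D.pr z s * (if z ∈ D.EE j x u then 2 * Φ j ^ 2 else 0) =
      if z ∈ D.EE j x u then 2 * Φ j ^ 2 * D.pr z s else 0 := by
    intro z
    split_ifs <;> ring
  simp only [this]
  rw [Finset.sum_ite_mem, Finset.univ_inter]

variable (s2 : ∀ u, ∀ x ∈ D.N u, ∀ z,
    D.gam (fun z σ => D.ph u z σ * D.ph x z σ) z ≤ 2 + e2 D Φ x u z)
  (s3 : ∀ u, ∀ x ∈ D.N u, ∀ y ∈ D.N x ∩ D.N u, ∀ z,
    D.gam (fun z σ => D.ph u z σ * D.ph x z σ * D.ph y z σ) z ≤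
      2 + (e2 D Φ x u z + e2 D Φ y u z + e2 D Φ y x z))
  (s22 : ∀ v z, D.gam (fun z σ => D.ph v z σ * D.ph v z σ) z ≤
    2 + (if z ∈ D.N v then 2 * Φ D.R else 0))

include hΦm hΦ1 hthr hT0 s2 in
theorem M1 {u x : Fin n} (hx : x ∈ D.N u) :
    ∑ s, D.P s * (Fv D.N D.f u s * (if D.G u x s ∧ ¬ D.B x u s then D.pr x s else 0)) ≤
      D.c * Real.exp (2 * Φ (D.lev x u - 1) ^ 2 * D.T (D.lev x u) + 1) := by
  have key := D.tilt (fun z σ => D.ph u z σ * D.ph x z σ)
    (fun z σ => mul_nonneg (D.ph_nonneg _ _ _) (D.ph_nonneg _ _ _))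
    (fun z => by simp only [D.ph_none, mul_one]) (e2 D Φ x u) (s2 u x hx)
    (fun s => if D.G u x s ∧ ¬ D.B x u s then 1 else 0)
    (fun s => by split_ifs <;> norm_num)
    (Real.exp (2 * Φ (D.lev x u - 1) ^ 2 * D.T (D.lev x u) + 1)) (Real.exp_pos _).le (by
      intro s hs
      by_cases h : D.G u x s ∧ ¬ D.B x u s
      · rw [if_pos h, mul_one, sum_e2]
        apply Real.exp_le_exp.2
        exact expo hΦm hΦ1 hthr hT0 h.1 (D.lev x u) ((D.hlev x u).trans (Nat.le_succ _))
          (fun j hj1 hj2 => D.ms_of_not_B h.2 j hj1 hj2)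
      · rw [if_neg h] at hs
        exact absurd rfl hs)
  simp only [Finset.prod_mul_distrib, D.prod_ph] at key
  calc ∑ s, D.P s * (Fv D.N D.f u s * (if D.G u x s ∧ ¬ D.B x u s then D.pr x s else 0))
      ≤ ∑ s, D.c * (D.P s * (Fv D.N D.f u s * Fv D.N D.f x s *
          (if D.G u x s ∧ ¬ D.B x u s then 1 else 0))) := by
        apply Finset.sum_le_sum
        intro s _
        have h1 := D.P_nonneg s
        have h2 := Fv_nonneg D u s
        have h3 := Fv_nonneg D x s
        have h4 := D.c0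
        by_cases h : D.G u x s ∧ ¬ D.B x u s
        · rw [if_pos h, if_pos h]
          have h5 : D.pr x s ≤ D.c * Fv D.N D.f x s := by
            rw [D.pr_eq]
            split_ifs
            · exact le_rfl
            · positivity
          calc D.P s * (Fv D.N D.f u s * D.pr x s)
              ≤ D.P s * (Fv D.N D.f u s * (D.c * Fv D.N D.f x s)) := by
                apply mul_le_mul_of_nonneg_left _ h1
                exact mul_le_mul_of_nonneg_left h5 h2
            _ = _ := by ring
        · rw [if_neg h, if_neg h]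
          simp
    _ ≤ _ := by
        rw [← Finset.mul_sum]
        exact mul_le_mul_of_nonneg_left key D.c0

include hΦm hΦ1 hthr hT0 s3 in
theorem M2y {u x y : Fin n} (hx : x ∈ D.N u) {J : ℕ} (hJ : J ≤ D.R) (hy : y ∈ D.EE J x u) :
    ∑ s, D.P s * (Fv D.N D.f u s * (Fv D.N D.f x s * (if D.G u x s ∧ D.G x x s ∧
      ¬ D.B y u s ∧ ¬ D.B y x s ∧ (∀ j, J < j → j ≤ D.R → D.ms j x u s ≤ D.thr j)
        then D.pr y s else 0))) ≤
      D.c * Real.exp (6 * Φ J ^ 2 * D.T (J + 1) + 3) := by
  have hyx := D.hE J x u hy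
  have hy1 := Finset.mem_inter.1 hyx
  have hlt : y < x := D.hN x y hy1.1
  have hl := D.hEu J x u y hy
  have key := D.tilt (fun z σ => D.ph u z σ * D.ph x z σ * D.ph y z σ)
    (fun z σ => mul_nonneg (mul_nonneg (D.ph_nonneg _ _ _) (D.ph_nonneg _ _ _))
      (D.ph_nonneg _ _ _))
    (fun z => by simp only [D.ph_none, mul_one])
    (fun z => e2 D Φ x u z + e2 D Φ y u z + e2 D Φ y x z) (s3 u x hx y hyx)
    (fun s => if D.G u x s ∧ D.G x x s ∧
      ¬ D.B y u s ∧ ¬ D.B y x s ∧ (∀ j, J < j → j ≤ D.R → D.ms j x u s ≤ D.thr j) then 1 else 0)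
    (fun s => by split_ifs <;> norm_num)
    (Real.exp (6 * Φ J ^ 2 * D.T (J + 1) + 3)) (Real.exp_pos _).le (by
      intro s hs
      by_cases h : D.G u x s ∧ D.G x x s ∧
        ¬ D.B y u s ∧ ¬ D.B y x s ∧ (∀ j, J < j → j ≤ D.R → D.ms j x u s ≤ D.thr j)
      · rw [if_pos h, mul_one]
        obtain ⟨h1, h2, h3, h4, h5⟩ := h
        apply Real.exp_le_exp.2
        simp only [mul_add, Finset.sum_add_distrib, sum_e2]
        have a1 := expo hΦm hΦ1 hthr hT0 h1 (J + 1) (by omega)
          (fun j hj1 hj2 => h5 j hj1 hj2)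
        have a2 := expo hΦm hΦ1 hthr hT0 (D.G_mono hlt.le h1) (J + 1) (by omega)
          (fun j hj1 hj2 => D.ms_of_not_B h3 j (by omega) hj2)
        have a3 := expo hΦm hΦ1 hthr hT0 (D.G_mono hlt.le h2) (J + 1) (by omega)
          (fun j hj1 hj2 => D.ms_of_not_B h4 j (by omega) hj2)
        rw [Nat.add_sub_cancel] at a1 a2 a3
        linarith
      · rw [if_neg h] at hs
        exact absurd rfl hs)
  simp only [Finset.prod_mul_distrib, D.prod_ph] at key
  calc _ ≤ ∑ s, D.c * (D.P s * (Fv D.N D.f u s * Fv D.N D.f x s * Fv D.N D.f y s *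
          (if D.G u x s ∧ D.G x x s ∧
      ¬ D.B y u s ∧ ¬ D.B y x s ∧ (∀ j, J < j → j ≤ D.R → D.ms j x u s ≤ D.thr j)
        then 1 else 0))) := by
        apply Finset.sum_le_sum
        intro s _
        have h1 := D.P_nonneg s
        have h2 := Fv_nonneg D u s
        have h3 := Fv_nonneg D x s
        have h3' := Fv_nonneg D y s
        have h4 := D.c0
        by_cases h : D.G u x s ∧ D.G x x s ∧
          ¬ D.B y u s ∧ ¬ D.B y x s ∧ (∀ j, J < j → j ≤ D.R → D.ms j x u s ≤ D.thr j)
        · rw [if_pos h, if_pos h]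
          have h5 : D.pr y s ≤ D.c * Fv D.N D.f y s := by
            rw [D.pr_eq]
            split_ifs
            · exact le_rfl
            · positivity
          calc D.P s * (Fv D.N D.f u s * (Fv D.N D.f x s * D.pr y s))
              ≤ D.P s * (Fv D.N D.f u s * (Fv D.N D.f x s * (D.c * Fv D.N D.f y s))) := by
                apply mul_le_mul_of_nonneg_left _ h1
                apply mul_le_mul_of_nonneg_left _ h2
                exact mul_le_mul_of_nonneg_left h5 h3
            _ = _ := by ring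
        · rw [if_neg h, if_neg h]
          simp
    _ ≤ _ := by
        rw [← Finset.mul_sum]
        exact mul_le_mul_of_nonneg_left key D.c0

include hthr hΦ1 in
theorem thr_pos (j : ℕ) : 0 < D.thr j := by
  rw [hthr]
  have := hΦ1 j
  positivity

include hthr hΦ1 in
/-- Pointwise inequality for bad vertices. -/
theorem bad_pointwise {u x : Fin n} {s : Fin n → Option (Option Λ)}
    (h1 : D.G u x s) (h2 : D.B x u s) (h3 : D.G x x s) :
    (1:ℝ) ≤ ∑ J ∈ Finset.range (D.R + 1), (if D.lev x u ≤ J then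
        (2 / D.thr J) * ∑ y ∈ D.EE J x u, (if D.G u x s ∧ D.G x x s ∧
          ¬ D.B y u s ∧ ¬ D.B y x s ∧ (∀ j, J < j → j ≤ D.R → D.ms j x u s ≤ D.thr j)
            then D.pr y s else 0) else 0) := by
  obtain ⟨J, hJ1, hJ2, hJ3, hJ4⟩ : ∃ J, D.lev x u ≤ J ∧ J ≤ D.R ∧ D.thr J < D.ms J x u s ∧
      ∀ j, J < j → j ≤ D.R → D.ms j x u s ≤ D.thr j := by
    obtain ⟨j0, ha, hb, hc⟩ := h2
    have hne : ((Finset.range (D.R + 1)).filter
        (fun j => D.lev x u ≤ j ∧ D.thr j < D.ms j x u s)).Nonempty :=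
      ⟨j0, by rw [Finset.mem_filter, Finset.mem_range]; exact ⟨by omega, ha, hc⟩⟩
    have hmax := Finset.max'_mem _ hne
    rw [Finset.mem_filter, Finset.mem_range] at hmax
    refine ⟨_, hmax.2.1, by omega, hmax.2.2, ?_⟩
    intro j hj hjR
    by_contra hcon
    have : j ∈ (Finset.range (D.R + 1)).filter
        (fun j => D.lev x u ≤ j ∧ D.thr j < D.ms j x u s) := by
      rw [Finset.mem_filter, Finset.mem_range]
      exact ⟨by omega, le_trans hmax.2.1 hj.le, not_le.1 hcon⟩
    have := Finset.le_max' _ _ this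
    omega
  have hpos := thr_pos hΦ1 hthr (D := D) J
  have hpr : ∀ z, 0 ≤ D.pr z s := fun z => D.pr_nonneg z s
  have hsplit : D.ms J x u s ≤
      ∑ y ∈ D.EE J x u, (if D.G u x s ∧ D.G x x s ∧
          ¬ D.B y u s ∧ ¬ D.B y x s ∧ (∀ j, J < j → j ≤ D.R → D.ms j x u s ≤ D.thr j)
            then D.pr y s else 0) +
      ∑ y ∈ (D.N u).filter (fun y => D.lev y u = J ∧ y < x ∧ D.B y u s), D.pr y s +
      ∑ y ∈ (D.N x).filter (fun y => D.lev y x = J ∧ y < x ∧ D.B y x s), D.pr y s := by
    have e1 : ∑ y ∈ D.EE J x u, (if D.B y u s then D.pr y s else 0) ≤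
        ∑ y ∈ (D.N u).filter (fun y => D.lev y u = J ∧ y < x ∧ D.B y u s), D.pr y s := by
      rw [← Finset.sum_filter]
      apply Finset.sum_le_sum_of_subset_of_nonneg
      · intro z hz
        rw [Finset.mem_filter] at hz ⊢
        have h4 := Finset.mem_inter.1 (D.hE J x u hz.1)
        exact ⟨h4.2, (D.hEu J x u z hz.1).1, D.hN x z h4.1, hz.2⟩
      · intro z _ _; exact hpr z
    have e2 : ∑ y ∈ D.EE J x u, (if D.B y x s then D.pr y s else 0) ≤
        ∑ y ∈ (D.N x).filter (fun y => D.lev y x = J ∧ y < x ∧ D.B y x s), D.pr y s := by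
      rw [← Finset.sum_filter]
      apply Finset.sum_le_sum_of_subset_of_nonneg
      · intro z hz
        rw [Finset.mem_filter] at hz ⊢
        have h4 := Finset.mem_inter.1 (D.hE J x u hz.1)
        exact ⟨h4.1, (D.hEu J x u z hz.1).2, D.hN x z h4.1, hz.2⟩
      · intro z _ _; exact hpr z
    calc D.ms J x u s ≤ ∑ y ∈ D.EE J x u,
          ((if D.G u x s ∧ D.G x x s ∧
          ¬ D.B y u s ∧ ¬ D.B y x s ∧ (∀ j, J < j → j ≤ D.R → D.ms j x u s ≤ D.thr j)
            then D.pr y s else 0) +
          (if D.B y u s then D.pr y s else 0) + (if D.B y x s then D.pr y s else 0)) := by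
          apply Finset.sum_le_sum
          intro y _
          have := hpr y
          by_cases b1 : D.B y u s
          · by_cases b2 : D.B y x s
            · simp only [b1, b2, not_true_eq_false, false_and, and_false, if_false, if_true]
              linarith
            · simp only [b1, b2, not_true_eq_false, false_and, and_false, if_false, if_true]
              linarith
          · by_cases b2 : D.B y x s
            · simp only [b1, b2, not_true_eq_false, false_and, and_false, if_false, if_true]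
              linarith
            · rw [if_pos ⟨h1, h3, b1, b2, hJ4⟩, if_neg b1, if_neg b2]
              linarith
      _ = _ := by rw [Finset.sum_add_distrib, Finset.sum_add_distrib]
      _ ≤ _ := by linarith
  have h5 := h1.2 J hJ2
  have h6 := h3.2 J hJ2
  have hterm : (1:ℝ) ≤ (2 / D.thr J) * ∑ y ∈ D.EE J x u, (if D.G u x s ∧ D.G x x s ∧
          ¬ D.B y u s ∧ ¬ D.B y x s ∧ (∀ j, J < j → j ≤ D.R → D.ms j x u s ≤ D.thr j)
            then D.pr y s else 0) := by
    rw [div_mul_eq_mul_div, le_div_iff₀ hpos]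
    have h5' : ∑ y ∈ (D.N u).filter (fun y => D.lev y u = J ∧ y < x ∧ D.B y u s), D.pr y s ≤
      D.thr J / 4 := h5
    have h6' : ∑ y ∈ (D.N x).filter (fun y => D.lev y x = J ∧ y < x ∧ D.B y x s), D.pr y s ≤
      D.thr J / 4 := h6
    linarith
  calc (1:ℝ) ≤ _ := hterm
    _ = (if D.lev x u ≤ J then
        (2 / D.thr J) * ∑ y ∈ D.EE J x u, (if D.G u x s ∧ D.G x x s ∧
          ¬ D.B y u s ∧ ¬ D.B y x s ∧ (∀ j, J < j → j ≤ D.R → D.ms j x u s ≤ D.thr j)
            then D.pr y s else 0) else 0) := by rw [if_pos hJ1]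
    _ ≤ _ := by
      apply Finset.single_le_sum (f := fun J => (if D.lev x u ≤ J then
        (2 / D.thr J) * ∑ y ∈ D.EE J x u, (if D.G u x s ∧ D.G x x s ∧
          ¬ D.B y u s ∧ ¬ D.B y x s ∧ (∀ j, J < j → j ≤ D.R → D.ms j x u s ≤ D.thr j)
            then D.pr y s else 0) else 0))
      · intro j _
        split_ifs
        · apply mul_nonneg
          · have := thr_pos hΦ1 hthr (D := D) j
            positivity
          · apply Finset.sum_nonneg
            intro y _
            split_ifs
            · exact hpr y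
            · exact le_rfl
        · exact le_rfl
      · rw [Finset.mem_range]; omega

include hΦm hΦ1 hthr hT0 s3 in
theorem M2 {u x : Fin n} (hx : x ∈ D.N u) :
    ∑ s, D.P s * (Fv D.N D.f u s * (if D.G u x s ∧ D.B x u s then D.pr x s else 0)) ≤
      D.c * ∑ J ∈ Finset.range (D.R + 1), (if D.lev x u ≤ J then
        (2 / D.thr J) * ∑ _y ∈ D.EE J x u, D.c * Real.exp (6 * Φ J ^ 2 * D.T (J + 1) + 3)
          else 0) := by
  calc ∑ s, D.P s * (Fv D.N D.f u s * (if D.G u x s ∧ D.B x u s then D.pr x s else 0))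
      ≤ ∑ s, D.c * ∑ J ∈ Finset.range (D.R + 1), (if D.lev x u ≤ J then
        (2 / D.thr J) * ∑ y ∈ D.EE J x u, D.P s * (Fv D.N D.f u s * (Fv D.N D.f x s *
          (if D.G u x s ∧ D.G x x s ∧
          ¬ D.B y u s ∧ ¬ D.B y x s ∧ (∀ j, J < j → j ≤ D.R → D.ms j x u s ≤ D.thr j)
            then D.pr y s else 0))) else 0) := by
        apply Finset.sum_le_sum
        intro s _
        have h1 := D.P_nonneg s
        have h2 := Fv_nonneg D u s
        have h3 := Fv_nonneg D x s
        have h4 := D.c0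
        have hR : 0 ≤ D.c * ∑ J ∈ Finset.range (D.R + 1), (if D.lev x u ≤ J then
          (2 / D.thr J) * ∑ y ∈ D.EE J x u, D.P s * (Fv D.N D.f u s * (Fv D.N D.f x s *
          (if D.G u x s ∧ D.G x x s ∧
          ¬ D.B y u s ∧ ¬ D.B y x s ∧ (∀ j, J < j → j ≤ D.R → D.ms j x u s ≤ D.thr j)
            then D.pr y s else 0))) else 0) := by
          apply mul_nonneg h4
          apply Finset.sum_nonneg
          intro J _
          split_ifs
          · apply mul_nonneg
            · have := thr_pos hΦ1 hthr (D := D) J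
              positivity
            · apply Finset.sum_nonneg
              intro y _
              apply mul_nonneg h1
              apply mul_nonneg h2
              apply mul_nonneg h3
              split_ifs
              · exact D.pr_nonneg y s
              · exact le_rfl
          · exact le_rfl
        by_cases h : D.G u x s ∧ D.B x u s
        · rw [if_pos h, D.pr_eq]
          split_ifs with hc
          · have hb := bad_pointwise hΦ1 hthr h.1 h.2 hc.1
            have hc0 : 0 ≤ D.c * (D.P s * (Fv D.N D.f u s * Fv D.N D.f x s)) := by positivity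
            calc D.P s * (Fv D.N D.f u s * (D.c * Fv D.N D.f x s))
                = D.c * (D.P s * (Fv D.N D.f u s * Fv D.N D.f x s)) * 1 := by ring
              _ ≤ D.c * (D.P s * (Fv D.N D.f u s * Fv D.N D.f x s)) * _ :=
                  mul_le_mul_of_nonneg_left hb hc0
              _ = _ := by
                  rw [mul_assoc D.c]
                  congr 1
                  rw [Finset.mul_sum]
                  apply Finset.sum_congr rfl
                  intro J _
                  split_ifs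
                  · simp only [Finset.mul_sum]
                    apply Finset.sum_congr rfl
                    intro y _
                    ring
                  · ring
          · rw [mul_zero, mul_zero]
            exact hR
        · rw [if_neg h, mul_zero, mul_zero]
          exact hR
    _ = D.c * ∑ J ∈ Finset.range (D.R + 1), (if D.lev x u ≤ J then
        (2 / D.thr J) * ∑ y ∈ D.EE J x u, ∑ s, D.P s * (Fv D.N D.f u s * (Fv D.N D.f x s *
          (if D.G u x s ∧ D.G x x s ∧
          ¬ D.B y u s ∧ ¬ D.B y x s ∧ (∀ j, J < j → j ≤ D.R → D.ms j x u s ≤ D.thr j)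
            then D.pr y s else 0))) else 0) := by
        rw [← Finset.mul_sum]
        congr 1
        rw [Finset.sum_comm]
        apply Finset.sum_congr rfl
        intro J _
        by_cases hJ : D.lev x u ≤ J
        · simp only [if_pos hJ]
          rw [← Finset.mul_sum, Finset.sum_comm]
        · simp only [if_neg hJ, Finset.sum_const_zero]
    _ ≤ _ := by
        apply mul_le_mul_of_nonneg_left _ D.c0
        apply Finset.sum_le_sum
        intro J hJ
        rw [Finset.mem_range] at hJ
        split_ifs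
        · apply mul_le_mul_of_nonneg_left
          · apply Finset.sum_le_sum
            intro y hy
            exact M2y hΦm hΦ1 hthr hT0 s3 hx (by omega) hy
          · have := thr_pos hΦ1 hthr (D := D) J
            positivity
        · exact le_rfl

end

end Pool.Agent.R49.KR
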