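import Pool.Agent.R49.KR.Dyn

set_option autoImplicit false

open Finset
open scoped Classical

noncomputable section

namespace Pool.Agent.R49.KR

variable {n : ℕ} {Λ : Type} [Fintype Λ]

theorem swap1 {Ω : Type*} [Fintype Ω] (g : Ω → ℝ) {ι : Type*} (s : Finset ι) (a : ι → ℝ)
    (t : ι → Finset (Fin n)) (K : Ω → Fin n → ℝ) :
    ∑ ω, g ω * (∑ L ∈ s, a L * ∑ x ∈ t L, K ω x) =
      ∑ L ∈ s, a L * ∑ x ∈ t L, ∑ ω, g ω * K ω x := by
  simp only [Finset.mul_sum]
  rw [Finset.sum_comm]
  apply Finset.sum_congr rfl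
  intro L _
  rw [Finset.sum_comm]
  apply Finset.sum_congr rfl
  intro x _
  apply Finset.sum_congr rfl
  intro ω _
  ring

section
variable {D : Dat n Λ} {Φ : ℕ → ℝ} (hΦm : Monotone Φ) (hΦ1 : ∀ j, 1 ≤ Φ j)
  (hthr : ∀ j, D.thr j = 1 / (2 * ((D.R : ℝ) + 1) * Φ j ^ 2)) (hT0 : D.T 0 = 0)
  (hTm : Monotone D.T)
  (s2 : ∀ u, ∀ x ∈ D.N u, ∀ z,
    D.gam (fun z σ => D.ph u z σ * D.ph x z σ) z ≤ 2 + e2 D Φ x u z)
  (s3 : ∀ u, ∀ x ∈ D.N u, ∀ y ∈ D.N x ∩ D.N u, ∀ z,
    D.gam (fun z σ => D.ph u z σ * D.ph x z σ * D.ph y z σ) z ≤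
      2 + (e2 D Φ x u z + e2 D Φ y u z + e2 D Φ y x z))
  (s22 : ∀ v z, D.gam (fun z σ => D.ph v z σ * D.ph v z σ) z ≤
    2 + (if z ∈ D.N v then 2 * Φ D.R else 0))
  {d C : ℝ} (hd : 0 < d) (hC : 1 ≤ C) (hcd : D.c * d = C) (hNd : ∀ x, ((D.N x).card : ℝ) ≤ d)
  {θ : ℕ → ℝ}
  (hEc : ∀ u, ∀ x ∈ D.N u, ∀ J, D.lev x u ≤ J → J ≤ D.R → ((D.EE J x u).card : ℝ) ≤ θ J * d)
  (nx : ∀ J, J ≤ D.R → (2 / D.thr J) * (θ J * C * Real.exp (6 * Φ J ^ 2 * D.T (J + 1) + 3)) ≤
    D.thr J / (32 * C * ((D.R:ℝ) + 1) ^ 2))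
  (n1 : ∀ L, L ≤ D.R → 8 * ((D.R:ℝ) + 1) * (C * Real.exp (2 * Φ (L - 1) ^ 2 * D.T L + 1) + 1) ≤
    D.T (L + 1))
  (nM : 4 * Real.exp (2 * Φ D.R * D.T (D.R + 1)) ≤ D.M)

include hΦm hΦ1 hthr in
theorem thr_anti {i j : ℕ} (h : i ≤ j) : D.thr j ≤ D.thr i := by
  rw [hthr, hthr]
  have h1 := hΦ1 i
  have h2 := hΦm h
  apply one_div_le_one_div_of_le (by positivity)
  apply mul_le_mul_of_nonneg_left _ (by positivity)
  nlinarith

include hΦm hΦ1 hthr hT0 s3 hC hcd hEc nx in
theorem M2' {u x : Fin n} (hx : x ∈ D.N u) :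
    ∑ s, D.P s * (Fv D.N D.f u s * (if D.G u x s ∧ D.B x u s then D.pr x s else 0)) ≤
      D.c * (D.thr (D.lev x u) / (32 * C * ((D.R:ℝ) + 1))) := by
  refine (M2 hΦm hΦ1 hthr hT0 s3 hx).trans ?_
  apply mul_le_mul_of_nonneg_left _ D.c0
  calc ∑ J ∈ Finset.range (D.R + 1), (if D.lev x u ≤ J then
        (2 / D.thr J) * ∑ _y ∈ D.EE J x u, D.c * Real.exp (6 * Φ J ^ 2 * D.T (J + 1) + 3)
          else 0)
      ≤ ∑ J ∈ Finset.range (D.R + 1), D.thr (D.lev x u) / (32 * C * ((D.R:ℝ) + 1) ^ 2) := by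
        apply Finset.sum_le_sum
        intro J hJ
        rw [Finset.mem_range] at hJ
        have hp := thr_pos hΦ1 hthr (D := D) (D.lev x u)
        have hpJ := thr_pos hΦ1 hthr (D := D) J
        split_ifs with hl
        · rw [Finset.sum_const, nsmul_eq_mul]
          have h1 := hEc u x hx J hl (by omega)
          have h2 := nx J (by omega)
          have h3 := thr_anti hΦm hΦ1 hthr hl (D := D)
          have h4 : ((D.EE J x u).card : ℝ) * (D.c * Real.exp (6 * Φ J ^ 2 * D.T (J + 1) + 3)) ≤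
              θ J * C * Real.exp (6 * Φ J ^ 2 * D.T (J + 1) + 3) := by
            rw [← mul_assoc]
            apply mul_le_mul_of_nonneg_right _ (Real.exp_pos _).le
            calc ((D.EE J x u).card : ℝ) * D.c ≤ (θ J * d) * D.c :=
                  mul_le_mul_of_nonneg_right h1 D.c0
              _ = θ J * C := by rw [← hcd]; ring
          calc (2 / D.thr J) * (((D.EE J x u).card : ℝ) *
                (D.c * Real.exp (6 * Φ J ^ 2 * D.T (J + 1) + 3)))
              ≤ (2 / D.thr J) * (θ J * C * Real.exp (6 * Φ J ^ 2 * D.T (J + 1) + 3)) :=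
                mul_le_mul_of_nonneg_left h4 (by positivity)
            _ ≤ D.thr J / (32 * C * ((D.R:ℝ) + 1) ^ 2) := h2
            _ ≤ _ := by gcongr
        · positivity
    _ = D.thr (D.lev x u) / (32 * C * ((D.R:ℝ) + 1)) := by
        rw [Finset.sum_const, Finset.card_range, nsmul_eq_mul]
        push_cast
        field_simp

include hΦm hΦ1 hthr hT0 hTm s2 s3 hC hcd hEc nx in
theorem M3 {u x : Fin n} (hx : x ∈ D.N u) {L : ℕ} (hL : D.lev x u ≤ L) :
    ∑ s, D.P s * (Fv D.N D.f u s * (if D.G u x s then D.pr x s else 0)) ≤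
      D.c * Real.exp (2 * Φ (L - 1) ^ 2 * D.T L + 1) + D.c / C := by
  have h1 := M1 hΦm hΦ1 hthr hT0 s2 hx
  have h2 := M2' hΦm hΦ1 hthr hT0 s3 hC hcd hEc nx hx
  have hT0' : ∀ j, 0 ≤ D.T j := fun j => by
    rw [← hT0]; exact hTm (Nat.zero_le j)
  have h3 : D.c * Real.exp (2 * Φ (D.lev x u - 1) ^ 2 * D.T (D.lev x u) + 1) ≤
      D.c * Real.exp (2 * Φ (L - 1) ^ 2 * D.T L + 1) := by
    apply mul_le_mul_of_nonneg_left _ D.c0
    apply Real.exp_le_exp.2
    have a1 : Φ (D.lev x u - 1) ≤ Φ (L - 1) := hΦm (by omega)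
    have a2 : D.T (D.lev x u) ≤ D.T L := hTm hL
    have a3 := hΦ1 (D.lev x u - 1)
    have a4 := hT0' (D.lev x u)
    have a5 : Φ (D.lev x u - 1) ^ 2 ≤ Φ (L - 1) ^ 2 := by nlinarith
    have a6 : Φ (D.lev x u - 1) ^ 2 * D.T (D.lev x u) ≤ Φ (L - 1) ^ 2 * D.T L :=
      mul_le_mul a5 a2 a4 (by positivity)
    linarith
  have h4 : D.c * (D.thr (D.lev x u) / (32 * C * ((D.R:ℝ) + 1))) ≤ D.c / C := by
    rw [div_eq_mul_inv D.c C]
    apply mul_le_mul_of_nonneg_left _ D.c0
    rw [div_le_iff₀ (by positivity)]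
    have b1 : D.thr (D.lev x u) ≤ 1 := by
      rw [hthr, div_le_one (by have := hΦ1 (D.lev x u); positivity)]
      have := hΦ1 (D.lev x u)
      have : (1:ℝ) ≤ (D.R:ℝ) + 1 := by linarith [(Nat.cast_nonneg D.R : (0:ℝ) ≤ (D.R:ℝ))]
      nlinarith
    have b2 : C⁻¹ * (32 * C * ((D.R:ℝ) + 1)) = 32 * ((D.R:ℝ) + 1) := by
      field_simp
    rw [b2]
    have : (0:ℝ) ≤ (D.R:ℝ) := Nat.cast_nonneg _
    linarith
  calc ∑ s, D.P s * (Fv D.N D.f u s * (if D.G u x s then D.pr x s else 0))
      = ∑ s, D.P s * (Fv D.N D.f u s * (if D.G u x s ∧ ¬ D.B x u s then D.pr x s else 0)) +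
        ∑ s, D.P s * (Fv D.N D.f u s * (if D.G u x s ∧ D.B x u s then D.pr x s else 0)) := by
        rw [← Finset.sum_add_distrib]
        apply Finset.sum_congr rfl
        intro s _
        by_cases a : D.G u x s
        · by_cases b : D.B x u s
          · simp [a, b]
          · simp [a, b]
        · simp [a]
    _ ≤ _ := by linarith

include hΦm hΦ1 hthr hT0 hTm s2 s3 hd hC hcd hEc nx hNd n1 in
/-- Under the measure tilted by `u`, the vertex `u` is good with probability at least `3/4`. -/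
theorem M4 (u : Fin n) :
    ∑ s, D.P s * (Fv D.N D.f u s * (if D.G u u s then (0:ℝ) else 1)) ≤ 1 / 4 := by
  have hTpos : ∀ L, 1 ≤ L → L ≤ D.R + 1 → 0 < D.T L := by
    intro L h1 h2
    obtain ⟨k, rfl⟩ : ∃ k, L = k + 1 := ⟨L - 1, by omega⟩
    refine lt_of_lt_of_le ?_ (n1 k (by omega))
    positivity
  have hR1 : (0:ℝ) < (D.R:ℝ) + 1 := by positivity
  have hN0 : ∀ t : Finset (Fin n), t ⊆ D.N u → (t.card : ℝ) ≤ d := by
    intro t ht
    refine le_trans ?_ (hNd u)
    exact_mod_cast Finset.card_le_card ht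
  calc ∑ s, D.P s * (Fv D.N D.f u s * (if D.G u u s then (0:ℝ) else 1))
      ≤ ∑ s, (D.P s * Fv D.N D.f u s) * (∑ L ∈ Finset.Icc 1 (D.R + 1), (1 / D.T L) *
          ∑ x ∈ (D.N u).filter (fun x => D.lev x u < L),
          (if D.G u x s then D.pr x s else 0) +
        ∑ L ∈ Finset.range (D.R + 1), (4 / D.thr L) *
          ∑ x ∈ (D.N u).filter (fun x => D.lev x u = L),
          (if D.G u x s ∧ D.B x u s then D.pr x s else 0)) := by
        apply Finset.sum_le_sum
        intro s _
        rw [← mul_assoc]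
        apply mul_le_mul_of_nonneg_left _ (mul_nonneg (D.P_nonneg s) (Fv_nonneg D u s))
        exact markov_pointwise hT0.ge hTpos (fun L _ => thr_pos hΦ1 hthr L)
          (fun y => D.pr_nonneg y s) u
    _ = ∑ L ∈ Finset.Icc 1 (D.R + 1), (1 / D.T L) *
          ∑ x ∈ (D.N u).filter (fun x => D.lev x u < L), ∑ s, (D.P s * Fv D.N D.f u s) *
          (if D.G u x s then D.pr x s else 0) +
        ∑ L ∈ Finset.range (D.R + 1), (4 / D.thr L) *
          ∑ x ∈ (D.N u).filter (fun x => D.lev x u = L), ∑ s, (D.P s * Fv D.N D.f u s) *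
          (if D.G u x s ∧ D.B x u s then D.pr x s else 0) := by
        simp only [mul_add, Finset.sum_add_distrib]
        rw [swap1, swap1]
    _ ≤ ∑ L ∈ Finset.Icc 1 (D.R + 1), 1 / (8 * ((D.R:ℝ) + 1)) +
        ∑ L ∈ Finset.range (D.R + 1), 1 / (8 * ((D.R:ℝ) + 1)) := by
        apply add_le_add
        · apply Finset.sum_le_sum
          intro L hL
          rw [Finset.mem_Icc] at hL
          obtain ⟨k, rfl⟩ : ∃ k, L = k + 1 := ⟨L - 1, by omega⟩
          have hp := hTpos (k + 1) hL.1 hL.2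
          have hn := n1 k (by omega)
          rw [one_div, inv_mul_le_iff₀ hp]
          calc ∑ x ∈ (D.N u).filter (fun x => D.lev x u < k + 1),
                ∑ s, (D.P s * Fv D.N D.f u s) * (if D.G u x s then D.pr x s else 0)
              ≤ ∑ x ∈ (D.N u).filter (fun x => D.lev x u < k + 1),
                (D.c * Real.exp (2 * Φ (k - 1) ^ 2 * D.T k + 1) + D.c / C) := by
                apply Finset.sum_le_sum
                intro x hx
                rw [Finset.mem_filter] at hx
                have hxk : D.lev x u ≤ k := Nat.lt_succ_iff.1 hx.2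
                simp only [mul_assoc]
                have := M3 hΦm hΦ1 hthr hT0 hTm s2 s3 hC hcd hEc nx hx.1 hxk
                simpa only [mul_assoc] using this
            _ = (((D.N u).filter (fun x => D.lev x u < k + 1)).card : ℝ) *
                (D.c * Real.exp (2 * Φ (k - 1) ^ 2 * D.T k + 1) + D.c / C) := by
                rw [Finset.sum_const, nsmul_eq_mul]
            _ ≤ d * (D.c * Real.exp (2 * Φ (k - 1) ^ 2 * D.T k + 1) + D.c / C) := by
                apply mul_le_mul_of_nonneg_right (hN0 _ (Finset.filter_subset _ _))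
                have := D.c0
                positivity
            _ = C * Real.exp (2 * Φ (k - 1) ^ 2 * D.T k + 1) + 1 := by
                have : d * (D.c / C) = 1 := by
                  rw [mul_div_assoc', mul_comm d, hcd, div_self (by positivity)]
                rw [mul_add, this, ← mul_assoc, mul_comm d, hcd]
            _ ≤ D.T (k + 1) * (1 / (8 * ((D.R:ℝ) + 1))) := by
                rw [mul_one_div, le_div_iff₀ (by positivity)]
                linarith
        · apply Finset.sum_le_sum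
          intro L hL
          rw [Finset.mem_range] at hL
          have hp := thr_pos hΦ1 hthr (D := D) L
          rw [div_mul_eq_mul_div, div_le_iff₀ hp]
          calc 4 * ∑ x ∈ (D.N u).filter (fun x => D.lev x u = L),
                ∑ s, (D.P s * Fv D.N D.f u s) * (if D.G u x s ∧ D.B x u s then D.pr x s else 0)
              ≤ 4 * ∑ x ∈ (D.N u).filter (fun x => D.lev x u = L),
                D.c * (D.thr L / (32 * C * ((D.R:ℝ) + 1))) := by
                apply mul_le_mul_of_nonneg_left _ (by norm_num)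
                apply Finset.sum_le_sum
                intro x hx
                rw [Finset.mem_filter] at hx
                simp only [mul_assoc]
                have := M2' hΦm hΦ1 hthr hT0 s3 hC hcd hEc nx hx.1
                rw [hx.2] at this
                simpa only [mul_assoc] using this
            _ = 4 * ((((D.N u).filter (fun x => D.lev x u = L)).card : ℝ) *
                (D.c * (D.thr L / (32 * C * ((D.R:ℝ) + 1))))) := by
                rw [Finset.sum_const, nsmul_eq_mul]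
            _ ≤ 4 * (d * (D.c * (D.thr L / (32 * C * ((D.R:ℝ) + 1))))) := by
                apply mul_le_mul_of_nonneg_left _ (by norm_num)
                apply mul_le_mul_of_nonneg_right (hN0 _ (Finset.filter_subset _ _))
                have := D.c0
                positivity
            _ = 1 / (8 * ((D.R:ℝ) + 1)) * D.thr L := by
                rw [← mul_assoc d, mul_comm d, hcd]
                field_simp
                ring
    _ = 1 / 4 := by
        rw [Finset.sum_const, Finset.sum_const, Nat.card_Icc, Finset.card_range, nsmul_eq_mul,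
          Nat.add_sub_cancel, nsmul_eq_mul]
        push_cast
        field_simp
        norm_num

include s22 nM hΦ1 in
theorem M5 (u : Fin n) :
    ∑ s, D.P s * (Fv D.N D.f u s * (if D.G u u s ∧ D.M < Fv D.N D.f u s then (1:ℝ) else 0))
      ≤ 1 / 4 := by
  have hM : 0 < D.M := lt_of_lt_of_le (by positivity) nM
  have key := D.tilt (fun z σ => D.ph u z σ * D.ph u z σ)
    (fun z σ => mul_nonneg (D.ph_nonneg _ _ _) (D.ph_nonneg _ _ _))
    (fun z => by simp only [D.ph_none, mul_one])
    (fun z => if z ∈ D.N u then 2 * Φ D.R else 0) (s22 u)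
    (fun s => if D.G u u s then 1 else 0)
    (fun s => by split_ifs <;> norm_num)
    (Real.exp (2 * Φ D.R * D.T (D.R + 1))) (Real.exp_pos _).le (by
      intro s hs
      by_cases h : D.G u u s
      · rw [if_pos h, mul_one]
        apply Real.exp_le_exp.2
        have e : ∀ z, D.pr z s * (if z ∈ D.N u then 2 * Φ D.R else 0) =
            if z ∈ D.N u then 2 * Φ D.R * D.pr z s else 0 := by
          intro z
          split_ifs <;> ring
        simp only [e]
        rw [Finset.sum_ite_mem, Finset.univ_inter, ← Finset.mul_sum]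
        apply mul_le_mul_of_nonneg_left _ (by have := hΦ1 D.R; positivity)
        have h1 := h.1 (D.R + 1) le_rfl
        have e1 : (D.N u).filter (fun y => D.lev y u < D.R + 1 ∧ y < u) = D.N u := by
          apply Finset.filter_true_of_mem
          intro y hy
          exact ⟨Nat.lt_succ_of_le (D.hlev y u), D.hN u y hy⟩
        rw [e1] at h1
        exact h1
      · rw [if_neg h] at hs
        exact absurd rfl hs)
  simp only [Finset.prod_mul_distrib, D.prod_ph] at key
  calc ∑ s, D.P s * (Fv D.N D.f u s * (if D.G u u s ∧ D.M < Fv D.N D.f u s then (1:ℝ) else 0))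
      ≤ ∑ s, (1 / D.M) * (D.P s * (Fv D.N D.f u s * Fv D.N D.f u s *
          (if D.G u u s then 1 else 0))) := by
        apply Finset.sum_le_sum
        intro s _
        have h1 := D.P_nonneg s
        have h2 := Fv_nonneg D u s
        by_cases h : D.G u u s ∧ D.M < Fv D.N D.f u s
        · rw [if_pos h, if_pos h.1]
          have h3 : Fv D.N D.f u s * 1 ≤ (1 / D.M) * (Fv D.N D.f u s * Fv D.N D.f u s) := by
            rw [div_mul_eq_mul_div, le_div_iff₀ hM]
            nlinarith [h.2]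
          calc D.P s * (Fv D.N D.f u s * 1) ≤
              D.P s * ((1 / D.M) * (Fv D.N D.f u s * Fv D.N D.f u s)) :=
                mul_le_mul_of_nonneg_left h3 h1
            _ = _ := by ring
        · rw [if_neg h, mul_zero, mul_zero]
          split_ifs
          · positivity
          · rw [mul_zero, mul_zero, mul_zero]
    _ = (1 / D.M) * ∑ s, D.P s * (Fv D.N D.f u s * Fv D.N D.f u s *
          (if D.G u u s then 1 else 0)) := by rw [Finset.mul_sum]
    _ ≤ (1 / D.M) * Real.exp (2 * Φ D.R * D.T (D.R + 1)) :=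
        mul_le_mul_of_nonneg_left key (by positivity)
    _ ≤ 1 / 4 := by
        rw [div_mul_eq_mul_div, one_mul, div_le_div_iff₀ hM (by norm_num)]
        linarith

include hΦm hΦ1 hthr hT0 hTm s2 s3 s22 hd hC hcd hEc nx hNd n1 nM in
/-- Every vertex is selected with probability at least `C / (2 d)`. -/
theorem M6 (u : Fin n) : C / (2 * d) ≤ ∑ s, D.P s * D.pr u s := by
  have h4 := M4 hΦm hΦ1 hthr hT0 hTm s2 s3 hd hC hcd hNd hEc nx n1 u
  have h5 := M5 hΦ1 s22 nM u
  have h6 := D.Q_sum u
  have e : ∀ s, D.P s * D.pr u s = D.c * (D.P s * Fv D.N D.f u s -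
      D.P s * (Fv D.N D.f u s * (if D.G u u s then (0:ℝ) else 1)) -
      D.P s * (Fv D.N D.f u s * (if D.G u u s ∧ D.M < Fv D.N D.f u s then (1:ℝ) else 0))) := by
    intro s
    rw [D.pr_eq]
    change D.P s * (if D.G u u s ∧ Fv D.N D.f u s ≤ D.M then D.c * Fv D.N D.f u s else 0) = _
    by_cases a : D.G u u s
    · by_cases b : Fv D.N D.f u s ≤ D.M
      · rw [if_pos ⟨a, b⟩, if_pos a, if_neg (fun h => absurd h.2 (not_lt.2 b))]
        ring
      · rw [if_neg (fun h => b h.2), if_pos a, if_pos ⟨a, not_le.1 b⟩]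
        ring
    · rw [if_neg (fun h => a h.1), if_neg a, if_neg (fun h => a h.1)]
      ring
  simp only [e]
  rw [← Finset.mul_sum, Finset.sum_sub_distrib, Finset.sum_sub_distrib, h6]
  have hc : D.c = C / d := by
    rw [eq_div_iff hd.ne']
    exact hcd
  rw [hc]
  have : C / (2 * d) = C / d * (1 / 2) := by field_simp
  rw [this]
  apply mul_le_mul_of_nonneg_left _ (by positivity)
  linarith

end

end Pool.Agent.R49.KR
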