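import Mathlib

set_option autoImplicit false

open Finset
open scoped Classical

noncomputable section

namespace Pool.Agent.R49.KR

variable {n : ℕ}

/-- `x` is bad for `u`: some exceptional set of high level carries too much mass. -/
def Bad (EE : ℕ → Fin n → Fin n → Finset (Fin n)) (lev : Fin n → Fin n → ℕ) (R : ℕ) (thr : ℕ → ℝ)
    (m : Fin n → ℝ) (x u : Fin n) : Prop :=
  ∃ j, lev x u ≤ j ∧ j ≤ R ∧ thr j < ∑ z ∈ EE j x u, m z

/-- `u` is good before time `x`. -/
def GB (N : Fin n → Finset (Fin n)) (EE : ℕ → Fin n → Fin n → Finset (Fin n))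
    (lev : Fin n → Fin n → ℕ) (R : ℕ) (T thr : ℕ → ℝ) (m : Fin n → ℝ) (u x : Fin n) : Prop :=
  (∀ L, L ≤ R + 1 → ∑ y ∈ (N u).filter (fun y => lev y u < L ∧ y < x), m y ≤ T L) ∧
    ∀ L, L ≤ R → ∑ y ∈ (N u).filter (fun y => lev y u = L ∧ y < x ∧ Bad EE lev R thr m y u), m y
      ≤ thr L / 4

theorem Bad_congr {EE : ℕ → Fin n → Fin n → Finset (Fin n)} {lev : Fin n → Fin n → ℕ} {R : ℕ}
    {thr : ℕ → ℝ} {m m' : Fin n → ℝ} {x u : Fin n} (h : ∀ j, ∀ z ∈ EE j x u, m z = m' z) :
    Bad EE lev R thr m x u ↔ Bad EE lev R thr m' x u := by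
  have e : ∀ j, ∑ z ∈ EE j x u, m z = ∑ z ∈ EE j x u, m' z := fun j =>
    Finset.sum_congr rfl (h j)
  unfold Bad
  simp only [e]

theorem GB_congr {N : Fin n → Finset (Fin n)} (hN : ∀ x, ∀ y ∈ N x, y < x)
    {EE : ℕ → Fin n → Fin n → Finset (Fin n)} (hE : ∀ j x u, EE j x u ⊆ N x ∩ N u)
    {lev : Fin n → Fin n → ℕ} {R : ℕ} {T thr : ℕ → ℝ}
    {m m' : Fin n → ℝ} {u x : Fin n} (h : ∀ z ∈ N u, z < x → m z = m' z) :
    GB N EE lev R T thr m u x ↔ GB N EE lev R T thr m' u x := by
  have hB : ∀ y ∈ N u, y < x → (Bad EE lev R thr m y u ↔ Bad EE lev R thr m' y u) := by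
    intro y hy hyx
    apply Bad_congr
    intro j z hz
    have hz' := Finset.mem_inter.1 (hE j y u hz)
    exact h z hz'.2 ((hN y z hz'.1).trans hyx)
  have e1 : ∀ L, ∑ y ∈ (N u).filter (fun y => lev y u < L ∧ y < x), m y
      = ∑ y ∈ (N u).filter (fun y => lev y u < L ∧ y < x), m' y := by
    intro L
    apply Finset.sum_congr rfl
    intro y hy
    rw [Finset.mem_filter] at hy
    exact h y hy.1 hy.2.2
  have e2 : ∀ L, (N u).filter (fun y => lev y u = L ∧ y < x ∧ Bad EE lev R thr m y u)
      = (N u).filter (fun y => lev y u = L ∧ y < x ∧ Bad EE lev R thr m' y u) := by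
    intro L
    apply Finset.filter_congr
    intro y hy
    constructor
    · rintro ⟨h0, h1, h2⟩; exact ⟨h0, h1, (hB y hy h1).1 h2⟩
    · rintro ⟨h0, h1, h2⟩; exact ⟨h0, h1, (hB y hy h1).2 h2⟩
  have e3 : ∀ L, ∑ y ∈ (N u).filter (fun y => lev y u = L ∧ y < x ∧ Bad EE lev R thr m y u), m y
      = ∑ y ∈ (N u).filter (fun y => lev y u = L ∧ y < x ∧ Bad EE lev R thr m' y u), m' y := by
    intro L
    rw [e2]
    apply Finset.sum_congr rfl
    intro y hy
    rw [Finset.mem_filter] at hy
    exact h y hy.1 hy.2.2.1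
  unfold GB
  simp only [e1, e3]

theorem GB_mono {N : Fin n → Finset (Fin n)}
    {EE : ℕ → Fin n → Fin n → Finset (Fin n)}
    {lev : Fin n → Fin n → ℕ} {R : ℕ} {T thr : ℕ → ℝ}
    {m : Fin n → ℝ} (hm : ∀ y, 0 ≤ m y) {u x y : Fin n} (hyx : y ≤ x)
    (h : GB N EE lev R T thr m u x) : GB N EE lev R T thr m u y := by
  refine ⟨fun L hL => le_trans ?_ (h.1 L hL), fun L hL => le_trans ?_ (h.2 L hL)⟩
  · apply Finset.sum_le_sum_of_subset_of_nonneg
    · intro z hz
      rw [Finset.mem_filter] at hz ⊢
      exact ⟨hz.1, hz.2.1, hz.2.2.trans_le hyx⟩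
    · intro z _ _; exact hm z
  · apply Finset.sum_le_sum_of_subset_of_nonneg
    · intro z hz
      rw [Finset.mem_filter] at hz ⊢
      exact ⟨hz.1, hz.2.1, hz.2.2.1.trans_le hyx, hz.2.2.2⟩
    · intro z _ _; exact hm z

/-- Stopping lemma. -/
theorem stop {N : Fin n → Finset (Fin n)}
    {EE : ℕ → Fin n → Fin n → Finset (Fin n)}
    {lev : Fin n → Fin n → ℕ} {R : ℕ} {T thr : ℕ → ℝ}
    {m : Fin n → ℝ} (hm : ∀ y, 0 ≤ m y) {u : Fin n}
    (h1 : ∀ L, L ≤ R + 1 →
      ∑ y ∈ (N u).filter (fun y => lev y u < L),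
        (if GB N EE lev R T thr m u y then m y else 0) ≤ T L)
    (h2 : ∀ L, L ≤ R → ∑ y ∈ (N u).filter (fun y => lev y u = L),
      (if GB N EE lev R T thr m u y ∧ Bad EE lev R thr m y u then m y else 0) ≤ thr L / 4)
    (x : Fin n) : GB N EE lev R T thr m u x := by
  induction x using WellFoundedLT.induction with
  | ind x ih =>
    refine ⟨fun L hL => le_trans ?_ (h1 L hL), fun L hL => le_trans ?_ (h2 L hL)⟩
    · calc ∑ y ∈ (N u).filter (fun y => lev y u < L ∧ y < x), m y
          = ∑ y ∈ (N u).filter (fun y => lev y u < L ∧ y < x),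
              (if GB N EE lev R T thr m u y then m y else 0) := by
            apply Finset.sum_congr rfl
            intro y hy
            rw [Finset.mem_filter] at hy
            rw [if_pos (ih y hy.2.2)]
        _ ≤ _ := by
            apply Finset.sum_le_sum_of_subset_of_nonneg
            · intro z hz
              rw [Finset.mem_filter] at hz ⊢
              exact ⟨hz.1, hz.2.1⟩
            · intro z _ _
              split_ifs
              · exact hm z
              · exact le_rfl
    · calc ∑ y ∈ (N u).filter (fun y => lev y u = L ∧ y < x ∧ Bad EE lev R thr m y u), m y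
          = ∑ y ∈ (N u).filter (fun y => lev y u = L ∧ y < x ∧ Bad EE lev R thr m y u),
              (if GB N EE lev R T thr m u y ∧ Bad EE lev R thr m y u then m y else 0) := by
            apply Finset.sum_congr rfl
            intro y hy
            rw [Finset.mem_filter] at hy
            rw [if_pos ⟨ih y hy.2.2.1, hy.2.2.2⟩]
        _ ≤ _ := by
            apply Finset.sum_le_sum_of_subset_of_nonneg
            · intro z hz
              rw [Finset.mem_filter] at hz ⊢
              exact ⟨hz.1, hz.2.1⟩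
            · intro z _ _
              split_ifs
              · exact hm z
              · exact le_rfl

/-- Pointwise Markov inequality. -/
theorem markov_pointwise {N : Fin n → Finset (Fin n)}
    {EE : ℕ → Fin n → Fin n → Finset (Fin n)}
    {lev : Fin n → Fin n → ℕ} {R : ℕ} {T thr : ℕ → ℝ} (hT0 : 0 ≤ T 0)
    (hTpos : ∀ L, 1 ≤ L → L ≤ R + 1 → 0 < T L) (hthr : ∀ L, L ≤ R → 0 < thr L)
    {m : Fin n → ℝ} (hm : ∀ y, 0 ≤ m y) (u : Fin n) :
    (if GB N EE lev R T thr m u u then (0:ℝ) else 1) ≤
      ∑ L ∈ Finset.Icc 1 (R + 1), (1 / T L) * ∑ x ∈ (N u).filter (fun x => lev x u < L),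
        (if GB N EE lev R T thr m u x then m x else 0) +
      ∑ L ∈ Finset.range (R + 1), (4 / thr L) * ∑ x ∈ (N u).filter (fun x => lev x u = L),
        (if GB N EE lev R T thr m u x ∧ Bad EE lev R thr m x u then m x else 0) := by
  have hn1 : ∀ L ∈ Finset.Icc 1 (R + 1), 0 ≤ (1 / T L) *
      ∑ x ∈ (N u).filter (fun x => lev x u < L),
        (if GB N EE lev R T thr m u x then m x else 0) := by
    intro L hL
    rw [Finset.mem_Icc] at hL
    apply mul_nonneg (by have := hTpos L hL.1 hL.2; positivity)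
    apply Finset.sum_nonneg
    intro x _
    split_ifs
    · exact hm x
    · exact le_rfl
  have hn2 : ∀ L ∈ Finset.range (R + 1), 0 ≤ (4 / thr L) *
      ∑ x ∈ (N u).filter (fun x => lev x u = L),
        (if GB N EE lev R T thr m u x ∧ Bad EE lev R thr m x u then m x else 0) := by
    intro L hL
    rw [Finset.mem_range] at hL
    apply mul_nonneg (by have := hthr L (by omega); positivity)
    apply Finset.sum_nonneg
    intro x _
    split_ifs
    · exact hm x
    · exact le_rfl
  by_cases hg : GB N EE lev R T thr m u u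
  · rw [if_pos hg]
    exact add_nonneg (Finset.sum_nonneg hn1) (Finset.sum_nonneg hn2)
  · rw [if_neg hg]
    by_contra hcon
    push Not at hcon
    apply hg
    have hs1 := Finset.sum_nonneg hn1
    have hs2 := Finset.sum_nonneg hn2
    apply stop hm
    · intro L hL
      rcases Nat.eq_zero_or_pos L with h0 | h0
      · subst h0
        have : (N u).filter (fun y => lev y u < 0) = ∅ := by
          apply Finset.filter_false_of_mem
          intro y _
          omega
        rw [this, Finset.sum_empty]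
        exact hT0
      · have h3 := Finset.single_le_sum hn1 (Finset.mem_Icc.2 ⟨h0, hL⟩)
        have hpos := hTpos L h0 hL
        have h4 : (1 / T L) * ∑ x ∈ (N u).filter (fun x => lev x u < L),
          (if GB N EE lev R T thr m u x then m x else 0) ≤ 1 := by linarith
        rw [one_div, inv_mul_le_iff₀ hpos, mul_one] at h4
        exact h4
    · intro L hL
      have h3 := Finset.single_le_sum hn2 (Finset.mem_range.2 (Nat.lt_succ_of_le hL))
      have hpos := hthr L hL
      have h4 : (4 / thr L) * ∑ x ∈ (N u).filter (fun x => lev x u = L),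
        (if GB N EE lev R T thr m u x ∧ Bad EE lev R thr m x u then m x else 0) ≤ 1 := by
        linarith
      rw [div_mul_eq_mul_div, div_le_one hpos] at h4
      linarith

end Pool.Agent.R49.KR
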