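import Mathlib

set_option autoImplicit false

open Finset
open scoped Classical

noncomputable section

namespace Pool.Agent.R49.KR.Low

/-- Every nonempty vertex set has a vertex with at most `D` neighbours in it. -/
def Degen {V : Type} [Fintype V] (G : SimpleGraph V) (D : ℕ) : Prop :=
  ∀ S : Finset V, S.Nonempty → ∃ v ∈ S, (S.filter (fun u => G.Adj v u)).card ≤ D

/-- A probability measure giving weight at most `p` to independent sets. -/
def Meas {V : Type} [Fintype V] (G : SimpleGraph V) (μ : V → ℝ) (p : ℝ) : Prop :=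
  (∀ v, 0 ≤ μ v) ∧ ∑ v, μ v = 1 ∧ ∀ I : Finset V, G.IsIndepSet (I : Set V) → ∑ v ∈ I, μ v ≤ p

/-- Adjacency of the step construction. -/
def stepAdj {V V' : Type} (G : SimpleGraph V) (G' : SimpleGraph V') (s : ℕ) :
    (Fin s × V) ⊕ ((Fin s → V) × V') → (Fin s × V) ⊕ ((Fin s → V) × V') → Prop
  | .inl x, .inl y => x.1 = y.1 ∧ G.Adj x.2 y.2
  | .inl x, .inr y => y.1 x.1 = x.2
  | .inr x, .inl y => x.1 y.1 = y.2
  | .inr x, .inr y => x.1 = y.1 ∧ G'.Adj x.2 y.2

/-- The step construction: `s` disjoint copies of `G`, and for every transversal a copy of `G'`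
joined to it. -/
def step {V V' : Type} (G : SimpleGraph V) (G' : SimpleGraph V') (s : ℕ) :
    SimpleGraph ((Fin s × V) ⊕ ((Fin s → V) × V')) where
  Adj := stepAdj G G' s
  symm := by
    constructor
    rintro (x | x) (y | y) h
    · exact ⟨h.1.symm, h.2.symm⟩
    · exact h
    · exact h
    · exact ⟨h.1.symm, h.2.symm⟩
  loopless := by
    constructor
    rintro (x | x) h
    · exact G.loopless.irrefl _ h.2
    · exact G'.loopless.irrefl _ h.2

variable {V V' : Type} [Fintype V] [Fintype V'] {G : SimpleGraph V} {G' : SimpleGraph V'} {s : ℕ}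

theorem step_degen {D' : ℕ} (h : Degen G (D' + s)) (h' : Degen G' D') :
    Degen (step G G' s) (D' + s) := by
  intro S hS
  by_cases hr : ∃ x : (Fin s → V) × V', Sum.inr x ∈ S
  · obtain ⟨⟨τ, v0⟩, hx⟩ := hr
    obtain ⟨v, hv, hc⟩ := h' (Finset.univ.filter (fun v => Sum.inr (τ, v) ∈ S))
      ⟨v0, by simpa using hx⟩
    rw [Finset.mem_filter] at hv
    refine ⟨Sum.inr (τ, v), hv.2, ?_⟩
    have hsub : S.filter (fun u => (step G G' s).Adj (Sum.inr (τ, v)) u) ⊆
        (((Finset.univ.filter (fun v => (Sum.inr (τ, v) : (Fin s × V) ⊕ ((Fin s → V) × V')) ∈ S)).filter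
          (fun u => G'.Adj v u)).image (fun u => Sum.inr (τ, u))) ∪
        (Finset.univ.image (fun t : Fin s => Sum.inl (t, τ t))) := by
      intro u hu
      rw [Finset.mem_filter] at hu
      rw [Finset.mem_union]
      rcases u with ⟨t, a⟩ | ⟨τ', w⟩
      · right
        rw [Finset.mem_image]
        have : τ t = a := hu.2
        exact ⟨t, Finset.mem_univ _, by rw [this]⟩
      · left
        have h1 : τ = τ' ∧ G'.Adj v w := hu.2
        rw [Finset.mem_image]
        refine ⟨w, ?_, by rw [h1.1]⟩
        rw [Finset.mem_filter, Finset.mem_filter]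
        exact ⟨⟨Finset.mem_univ _, by rw [h1.1]; exact hu.1⟩, h1.2⟩
    refine (Finset.card_le_card hsub).trans ((Finset.card_union_le _ _).trans ?_)
    apply add_le_add (Finset.card_image_le.trans hc)
    exact Finset.card_image_le.trans (by simp)
  · push Not at hr
    obtain ⟨x, hx⟩ := hS
    rcases x with ⟨t, a0⟩ | y
    · obtain ⟨a, ha, hc⟩ := h (Finset.univ.filter (fun a => Sum.inl (t, a) ∈ S))
        ⟨a0, by simpa using hx⟩
      rw [Finset.mem_filter] at ha
      refine ⟨Sum.inl (t, a), ha.2, ?_⟩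
      refine le_trans (Finset.card_le_card_of_injOn (fun u => Sum.elim (fun x => x.2)
        (fun _ => a0) u) ?_ ?_) hc
      · intro u hu
        rw [Finset.mem_coe, Finset.mem_filter] at hu
        rcases u with ⟨t', b⟩ | y
        · have h1 : t = t' ∧ G.Adj a b := hu.2
          rw [Finset.mem_coe, Finset.mem_filter, Finset.mem_filter]
          exact ⟨⟨Finset.mem_univ _, by rw [h1.1]; exact hu.1⟩, h1.2⟩
        · exact absurd hu.1 (hr y)
      · intro u hu w hw huw
        rw [Finset.mem_coe, Finset.mem_filter] at hu hw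
        rcases u with ⟨t', b⟩ | y
        · rcases w with ⟨t'', c⟩ | y
          · have h1 : t = t' ∧ G.Adj a b := hu.2
            have h2 : t = t'' ∧ G.Adj a c := hw.2
            have h3 : b = c := huw
            rw [← h1.1, ← h2.1, h3]
          · exact absurd hw.1 (hr y)
        · exact absurd hu.1 (hr y)
    · exact absurd hx (hr y)

theorem step_cliqueFree {k : ℕ} (h : G.CliqueFree (k + 3)) (h' : G'.CliqueFree (k + 2)) :
    (step G G' s).CliqueFree (k + 3) := by
  intro K hK
  have hcl := hK.1
  have hcard := hK.2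
  by_cases hr : ∃ x : (Fin s → V) × V', Sum.inr x ∈ K
  · obtain ⟨⟨τ, v0⟩, hx⟩ := hr
    -- split `K`
    have hall : ∀ x : (Fin s → V) × V', Sum.inr x ∈ K → x.1 = τ := by
      intro x hxK
      by_cases he : (Sum.inr x : (Fin s × V) ⊕ ((Fin s → V) × V')) = Sum.inr (τ, v0)
      · rw [Sum.inr.inj he]
      · exact (hcl (Finset.mem_coe.2 hxK) (Finset.mem_coe.2 hx) he).1
    have hall' : ∀ x : Fin s × V, Sum.inl x ∈ K → τ x.1 = x.2 := by
      intro x hxK
      exact hcl (Finset.mem_coe.2 hxK) (Finset.mem_coe.2 hx) (by simp)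
    set K1 : Finset (Fin s × V) := Finset.univ.filter (fun x => Sum.inl x ∈ K) with hK1
    set K2 : Finset V' := Finset.univ.filter (fun v => Sum.inr (τ, v) ∈ K) with hK2
    have hsub : K ⊆ K1.image Sum.inl ∪ K2.image (fun v => Sum.inr (τ, v)) := by
      intro u hu
      rw [Finset.mem_union, Finset.mem_image, Finset.mem_image]
      rcases u with x | ⟨τ', v⟩
      · left
        exact ⟨x, by rw [hK1, Finset.mem_filter]; exact ⟨Finset.mem_univ _, hu⟩, rfl⟩
      · right
        have := hall _ hu
        dsimp only at this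
        subst this
        exact ⟨v, by rw [hK2, Finset.mem_filter]; exact ⟨Finset.mem_univ _, hu⟩, rfl⟩
    have c1 : K1.card ≤ 1 := by
      rw [Finset.card_le_one]
      intro x hx1 y hy1
      rw [hK1, Finset.mem_filter] at hx1 hy1
      by_contra hne
      have h1 : x.1 = y.1 ∧ G.Adj x.2 y.2 := hcl (Finset.mem_coe.2 hx1.2)
        (Finset.mem_coe.2 hy1.2) (fun he => hne (Sum.inl.inj he))
      have h2 := hall' x hx1.2
      have h3 := hall' y hy1.2
      have h4 : x.2 = y.2 := by rw [← h2, ← h3, h1.1]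
      rw [h4] at h1
      exact G.loopless.irrefl _ h1.2
    have c2 : K2.card ≤ k + 1 := by
      by_contra hcon
      push Not at hcon
      obtain ⟨K3, hK3, hc3⟩ := Finset.exists_subset_card_eq (show k + 2 ≤ K2.card by omega)
      apply h' K3
      refine ⟨?_, hc3⟩
      intro a ha b hb hab
      have ha2 := hK3 (Finset.mem_coe.1 ha)
      have hb2 := hK3 (Finset.mem_coe.1 hb)
      rw [hK2, Finset.mem_filter] at ha2 hb2
      have h1 : (τ : Fin s → V) = τ ∧ G'.Adj a b := hcl (Finset.mem_coe.2 ha2.2)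
        (Finset.mem_coe.2 hb2.2) (fun he => hab (Prod.mk.inj (Sum.inr.inj he)).2)
      exact h1.2
    have := Finset.card_le_card hsub
    have h2 := Finset.card_union_le (K1.image Sum.inl) (K2.image (fun v => Sum.inr (τ, v)))
    have h3 : (K1.image (Sum.inl : _ → (Fin s × V) ⊕ ((Fin s → V) × V'))).card ≤ K1.card :=
      Finset.card_image_le
    have h4 : (K2.image (fun v => (Sum.inr (τ, v) : (Fin s × V) ⊕ ((Fin s → V) × V')))).card ≤
      K2.card := Finset.card_image_le
    omega
  · push Not at hr
    have hne : K.Nonempty := by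
      rw [← Finset.card_pos, hcard]; omega
    obtain ⟨x0, hx0⟩ := hne
    rcases x0 with ⟨t, a0⟩ | y
    · have hall : ∀ x : Fin s × V, Sum.inl x ∈ K → x.1 = t := by
        intro x hxK
        by_cases he : (Sum.inl x : (Fin s × V) ⊕ ((Fin s → V) × V')) = Sum.inl (t, a0)
        · rw [Sum.inl.inj he]
        · exact (hcl (Finset.mem_coe.2 hxK) (Finset.mem_coe.2 hx0) he).1
      have hinj : Set.InjOn (fun u : (Fin s × V) ⊕ ((Fin s → V) × V') => Sum.elim
          (fun x => x.2) (fun _ => a0) u) (K : Set _) := by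
        intro u hu w hw huw
        rw [Finset.mem_coe] at hu hw
        rcases u with ⟨t', b⟩ | y
        · rcases w with ⟨t'', c⟩ | y
          · have h1 := hall _ hu
            have h2 := hall _ hw
            dsimp only at h1 h2
            have h3 : b = c := huw
            rw [h1, h2, h3]
          · exact absurd hw (hr y)
        · exact absurd hu (hr y)
      apply h (K.image (fun u => Sum.elim (fun x => x.2) (fun _ => a0) u))
      refine ⟨?_, by rw [Finset.card_image_of_injOn hinj, hcard]⟩
      intro a ha b hb hab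
      rw [Finset.mem_coe, Finset.mem_image] at ha hb
      obtain ⟨u, hu, rfl⟩ := ha
      obtain ⟨w, hw, rfl⟩ := hb
      rcases u with ⟨t', b⟩ | y
      · rcases w with ⟨t'', c⟩ | y
        · exact (hcl (Finset.mem_coe.2 hu) (Finset.mem_coe.2 hw)
            (fun he => hab (by rw [he]))).2
        · exact absurd hw (hr y)
      · exact absurd hu (hr y)
    · exact absurd hx0 (hr y)

/-- The measure of the step construction. -/
def stepMeas (μ : V → ℝ) (μ' : V' → ℝ) (s : ℕ) (l : ℝ) :
    (Fin s × V) ⊕ ((Fin s → V) × V') → ℝ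
  | .inl x => (1 - l) * (μ x.2 / s)
  | .inr x => l * ((∏ t, μ (x.1 t)) * μ' x.2)

theorem step_meas {μ : V → ℝ} {μ' : V' → ℝ} {p p' q : ℝ} (hs : 0 < s) (hμ : Meas G μ p)
    (hμ' : Meas G' μ' p') (hp' : 0 ≤ p') (hqp : q ≤ p)
    (hq : p' * Real.exp (-(s * q)) ≤ q) :
    Meas (step G G' s) (stepMeas μ μ' s (1 / (1 + p' * s)))
      ((1 - 1 / (1 + p' * s)) * p + 1 / (1 + p' * s) * q) := by
  have hs0 : (0:ℝ) < (s:ℝ) := by exact_mod_cast hs
  set l : ℝ := 1 / (1 + p' * s) with hl
  have hl0 : 0 < l := by positivity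
  have hl1 : l ≤ 1 := by
    rw [hl, div_le_one (by positivity)]
    have : 0 ≤ p' * s := by positivity
    linarith
  have hlp : l * (p' * s) = 1 - l := by
    rw [hl]
    field_simp
    ring
  refine ⟨?_, ?_, ?_⟩
  · rintro (x | x)
    · exact mul_nonneg (by linarith) (div_nonneg (hμ.1 _) hs0.le)
    · exact mul_nonneg hl0.le (mul_nonneg (Finset.prod_nonneg fun t _ => hμ.1 _) (hμ'.1 _))
  · rw [Fintype.sum_sum_type]
    simp only [stepMeas]
    rw [Fintype.sum_prod_type, Fintype.sum_prod_type]
    have e1 : ∑ _t : Fin s, ∑ a : V, (1 - l) * (μ a / s) = 1 - l := by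
      rw [Finset.sum_const, Finset.card_univ, Fintype.card_fin, ← Finset.mul_sum,
        ← Finset.sum_div, hμ.2.1, nsmul_eq_mul]
      field_simp
    have e2 : ∑ τ : Fin s → V, ∑ v : V', l * ((∏ t, μ (τ t)) * μ' v) = l := by
      have : ∀ τ : Fin s → V, ∑ v : V', l * ((∏ t, μ (τ t)) * μ' v) = l * ∏ t, μ (τ t) := by
        intro τ
        rw [← Finset.mul_sum, ← Finset.mul_sum, hμ'.2.1, mul_one]
      simp only [this]
      rw [← Finset.mul_sum]
      have h2 := Finset.prod_univ_sum (fun _ : Fin s => (Finset.univ : Finset V))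
        (fun _ a => μ a)
      rw [Fintype.piFinset_univ] at h2
      rw [← h2]
      simp [hμ.2.1]
    rw [e1, e2]
    ring
  · intro I hI
    set It : Fin s → Finset V := fun t => Finset.univ.filter (fun a => Sum.inl (t, a) ∈ I) with hIt
    set y : Fin s → ℝ := fun t => ∑ a ∈ It t, μ a with hy
    have hind : ∀ t, G.IsIndepSet (It t : Set V) := by
      intro t a ha b hb hab hadj
      rw [Finset.mem_coe, hIt, Finset.mem_filter] at ha hb
      exact hI (Finset.mem_coe.2 ha.2) (Finset.mem_coe.2 hb.2)
        (fun he => hab (Prod.mk.inj (Sum.inl.inj he)).2) (show (t = t ∧ G.Adj a b) from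
          ⟨rfl, hadj⟩)
    have hyp : ∀ t, y t ≤ p := fun t => hμ.2.2 (It t) (hind t)
    have hy0 : ∀ t, 0 ≤ y t := fun t => Finset.sum_nonneg fun a _ => hμ.1 a
    have hy1 : ∀ t, y t ≤ 1 := by
      intro t
      rw [← hμ.2.1]
      exact Finset.sum_le_sum_of_subset_of_nonneg (Finset.subset_univ _) (fun a _ _ => hμ.1 a)
    -- split the measure of I
    have hsplit : ∑ v ∈ I, stepMeas μ μ' s l v =
        ∑ t : Fin s, ∑ a ∈ It t, (1 - l) * (μ a / s) +
        ∑ τ : Fin s → V, ∑ v ∈ Finset.univ.filter (fun v => Sum.inr (τ, v) ∈ I),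
          l * ((∏ t, μ (τ t)) * μ' v) := by
      have e0 : ∑ v ∈ I, stepMeas μ μ' s l v = ∑ v, if v ∈ I then stepMeas μ μ' s l v else 0 := by
        rw [Finset.sum_ite_mem, Finset.univ_inter]
      rw [e0, Fintype.sum_sum_type, Fintype.sum_prod_type, Fintype.sum_prod_type]
      congr 1
      · apply Finset.sum_congr rfl
        intro t _
        rw [hIt, Finset.sum_filter]
        apply Finset.sum_congr rfl
        intro a _
        rfl
      · apply Finset.sum_congr rfl
        intro τ _
        rw [Finset.sum_filter]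
        apply Finset.sum_congr rfl
        intro v _
        rfl
    have hfirst : ∑ t : Fin s, ∑ a ∈ It t, (1 - l) * (μ a / s) = (1 - l) * ((∑ t, y t) / s) := by
      simp only [← Finset.mul_sum, ← Finset.sum_div]
      rfl
    have hsecond : ∑ τ : Fin s → V, ∑ v ∈ Finset.univ.filter (fun v => Sum.inr (τ, v) ∈ I),
          l * ((∏ t, μ (τ t)) * μ' v) ≤ l * (p' * Real.exp (-(∑ t, y t))) := by
      have hterm : ∀ τ : Fin s → V, ∑ v ∈ Finset.univ.filter (fun v => Sum.inr (τ, v) ∈ I),
          l * ((∏ t, μ (τ t)) * μ' v) ≤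
          l * (p' * ∏ t, (if τ t ∈ It t then 0 else μ (τ t))) := by
        intro τ
        by_cases hτ : ∀ t, τ t ∉ It t
        · have h1 : ∏ t, (if τ t ∈ It t then 0 else μ (τ t)) = ∏ t, μ (τ t) :=
            Finset.prod_congr rfl fun t _ => by rw [if_neg (hτ t)]
          rw [h1, ← Finset.mul_sum, ← Finset.mul_sum]
          apply mul_le_mul_of_nonneg_left _ hl0.le
          rw [mul_comm p']
          apply mul_le_mul_of_nonneg_left _ (Finset.prod_nonneg fun t _ => hμ.1 _)
          apply hμ'.2.2
          intro a ha b hb hab hadj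
          rw [Finset.mem_coe, Finset.mem_filter] at ha hb
          exact hI (Finset.mem_coe.2 ha.2) (Finset.mem_coe.2 hb.2)
            (fun he => hab (Prod.mk.inj (Sum.inr.inj he)).2) (show (τ = τ ∧ G'.Adj a b) from
              ⟨rfl, hadj⟩)
        · push Not at hτ
          obtain ⟨t, ht⟩ := hτ
          have h1 : Finset.univ.filter (fun v => (Sum.inr (τ, v) :
              (Fin s × V) ⊕ ((Fin s → V) × V')) ∈ I) = ∅ := by
            rw [Finset.filter_eq_empty_iff]
            intro v _ hv
            rw [hIt, Finset.mem_filter] at ht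
            exact hI (Finset.mem_coe.2 ht.2) (Finset.mem_coe.2 hv) (by simp)
              (show τ t = τ t from rfl)
          rw [h1, Finset.sum_empty]
          apply mul_nonneg hl0.le
          apply mul_nonneg hp'
          apply Finset.prod_nonneg
          intro t _
          split_ifs
          · exact le_rfl
          · exact hμ.1 _
      refine (Finset.sum_le_sum fun τ _ => hterm τ).trans ?_
      rw [← Finset.mul_sum, ← Finset.mul_sum]
      apply mul_le_mul_of_nonneg_left _ hl0.le
      apply mul_le_mul_of_nonneg_left _ hp'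
      have h2 := Finset.prod_univ_sum (fun _ : Fin s => (Finset.univ : Finset V))
        (fun t a => if a ∈ It t then 0 else μ a)
      rw [Fintype.piFinset_univ] at h2
      rw [← h2]
      have h3 : ∀ t : Fin s, ∑ a : V, (if a ∈ It t then 0 else μ a) = 1 - y t := by
        intro t
        have : ∑ a : V, (if a ∈ It t then 0 else μ a) =
            ∑ a : V, (μ a - if a ∈ It t then μ a else 0) := by
          apply Finset.sum_congr rfl
          intro a _
          split_ifs <;> ring
        rw [this, Finset.sum_sub_distrib, hμ.2.1, Finset.sum_ite_mem, Finset.univ_inter]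
      simp only [h3]
      rw [← Finset.sum_neg_distrib, Real.exp_sum]
      apply Finset.prod_le_prod
      · intro t _
        linarith [hy1 t]
      · intro t _
        have := Real.add_one_le_exp (-(y t))
        linarith
    rw [hsplit, hfirst]
    set Y : ℝ := (∑ t, y t) / s with hYdef
    have hYs : ∑ t, y t = s * Y := by
      rw [hYdef]; field_simp
    have hY0 : 0 ≤ Y := div_nonneg (Finset.sum_nonneg fun t _ => hy0 t) hs0.le
    have hYp : Y ≤ p := by
      rw [hYdef, div_le_iff₀ hs0]
      calc ∑ t, y t ≤ ∑ _t : Fin s, p := Finset.sum_le_sum fun t _ => hyp t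
        _ = p * s := by rw [Finset.sum_const, Finset.card_univ, Fintype.card_fin, nsmul_eq_mul]
                        ring
    rw [hYs] at hsecond
    have hlip : Real.exp (-(s * Y)) ≤ Real.exp (-(s * p)) + s * (p - Y) := by
      have h1 := Real.add_one_le_exp (-(s * p) - (-(s * Y)))
      have h2 : Real.exp (-(s * p)) = Real.exp (-(s * Y)) *
          Real.exp (-(s * p) - (-(s * Y))) := by
        rw [← Real.exp_add]; congr 1; ring
      have h3 : Real.exp (-(s * Y)) ≤ 1 := by
        rw [Real.exp_le_one_iff]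
        have : 0 ≤ (s:ℝ) * Y := by positivity
        linarith
      have h4 := Real.exp_pos (-(s * Y))
      have h5 : 0 ≤ (s:ℝ) * (p - Y) := mul_nonneg hs0.le (by linarith)
      rw [h2]
      nlinarith
    have hpq : Real.exp (-(s * p)) ≤ Real.exp (-(s * q)) := by
      apply Real.exp_le_exp.2
      nlinarith
    calc (1 - l) * Y + _ ≤ (1 - l) * Y + l * (p' * Real.exp (-(s * Y))) := by linarith
      _ ≤ (1 - l) * Y + l * (p' * (Real.exp (-(s * p)) + s * (p - Y))) := by
          gcongr
      _ = (1 - l) * Y + l * (p' * Real.exp (-(s * p))) + (l * (p' * s)) * (p - Y) := by ring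
      _ = (1 - l) * p + l * (p' * Real.exp (-(s * p))) := by rw [hlp]; ring
      _ ≤ (1 - l) * p + l * q := by
          have : p' * Real.exp (-(s * p)) ≤ q :=
            (mul_le_mul_of_nonneg_left hpq hp').trans hq
          nlinarith

/-- Existence of graphs with small weight on independent sets. -/
def Ex (k D : ℕ) (p : ℝ) : Prop :=
  ∃ (V : Type) (_ : Fintype V) (G : SimpleGraph V) (μ : V → ℝ), Degen G D ∧ G.CliqueFree k ∧
    Meas G μ p

theorem ex_mono {k D : ℕ} {p p' : ℝ} (h : Ex k D p) (hp : p ≤ p') : Ex k D p' := by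
  obtain ⟨V, hV, G, μ, h1, h2, h3⟩ := h
  exact ⟨V, hV, G, μ, h1, h2, h3.1, h3.2.1, fun I hI => (h3.2.2 I hI).trans hp⟩

theorem ex_base (k D : ℕ) (hk : 2 ≤ k) : Ex k D 1 := by
  refine ⟨Unit, inferInstance, ⊥, fun _ => 1, ?_, ?_, ?_, ?_, ?_⟩
  · intro S hS
    obtain ⟨v, hv⟩ := hS
    exact ⟨v, hv, by simp⟩
  · intro K hK
    have h1 : K.card ≤ 1 := by
      refine (Finset.card_le_univ K).trans ?_
      simp
    have h2 := hK.2
    omega
  · intro _; exact zero_le_one
  · simp
  · intro I _
    rw [Finset.sum_const, nsmul_eq_mul, mul_one]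
    have h1 : I.card ≤ 1 := by
      refine (Finset.card_le_univ I).trans ?_
      simp
    exact_mod_cast h1

theorem ex_step {k D s : ℕ} {p' q : ℝ} (hs : 0 < s) (h : Ex (k + 2) D p') (hp' : 0 ≤ p')
    (hq0 : 0 < q) (hq1 : q ≤ 1) (hq : p' * Real.exp (-(s * q)) ≤ q) :
    Ex (k + 3) (D + s) (2 * q) := by
  obtain ⟨V', hV', G', μ', h1, h2, h3⟩ := h
  have hs0 : (0:ℝ) < (s:ℝ) := by exact_mod_cast hs
  have hiter : ∀ i : ℕ, Ex (k + 3) (D + s) (q + (1 - 1 / (1 + p' * s)) ^ i * (1 - q)) := by
    intro i
    induction i with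
    | zero =>
      rw [pow_zero]
      have := ex_base (k + 3) (D + s) (by omega)
      exact ex_mono this (by linarith)
    | succ i ih =>
      obtain ⟨V, hV, G, μ, g1, g2, g3⟩ := ih
      refine ⟨_, inferInstance, step G G' s, stepMeas μ μ' s (1 / (1 + p' * s)),
        step_degen g1 h1, step_cliqueFree g2 h2, ?_⟩
      have hl1 : 1 / (1 + p' * s) ≤ 1 := by
        rw [div_le_one (by positivity)]
        have : 0 ≤ p' * s := by positivity
        linarith
      have hpow : 0 ≤ (1 - 1 / (1 + p' * s)) ^ i * (1 - q) :=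
        mul_nonneg (pow_nonneg (by linarith) _) (by linarith)
      have := step_meas hs g3 h3 hp' (by linarith) hq
      have e : (1 - 1 / (1 + p' * s)) * (q + (1 - 1 / (1 + p' * s)) ^ i * (1 - q)) +
          1 / (1 + p' * s) * q = q + (1 - 1 / (1 + p' * s)) ^ (i + 1) * (1 - q) := by
        rw [pow_succ]
        ring
      rw [e] at this
      exact this
  have hl0 : 0 < 1 / (1 + p' * s) := by positivity
  have hl1 : 1 / (1 + p' * s) ≤ 1 := by
    rw [div_le_one (by positivity)]
    have : 0 ≤ p' * s := by positivity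
    linarith
  obtain ⟨i, hi⟩ := exists_pow_lt_of_lt_one hq0 (show 1 - 1 / (1 + p' * (s:ℝ)) < 1 by linarith)
  refine ex_mono (hiter i) ?_
  have h5 : (1 - 1 / (1 + p' * s)) ^ i * (1 - q) ≤ q * 1 := by
    apply mul_le_mul hi.le (by linarith) (by linarith) hq0.le
  linarith

/-- The iterated construction. -/
theorem ex_all {s : ℕ} (hs : 0 < s) : ∀ k : ℕ, (∀ j, 1 ≤ j → j ≤ k + 1 →
      2 ≤ Real.log^[j] (s:ℝ)) → Ex (k + 3) ((k + 1) * s) (2 * (Real.log^[k + 1] (s:ℝ) / s)) := by
  have hs0 : (0:ℝ) < (s:ℝ) := by exact_mod_cast hs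
  have hlogle : ∀ j, (∀ i, 1 ≤ i → i ≤ j → 2 ≤ Real.log^[i] (s:ℝ)) → Real.log^[j] (s:ℝ) ≤ s := by
    intro j
    induction j with
    | zero => intro _; exact le_rfl
    | succ j ih =>
      intro h
      rw [Function.iterate_succ_apply']
      have h1 := ih (fun i h1 h2 => h i h1 (by omega))
      have hpos : 0 < Real.log^[j] (s:ℝ) := by
        rcases Nat.eq_zero_or_pos j with h0 | h0
        · subst h0; exact hs0
        · linarith [h j h0 (by omega)]
      have := Real.log_le_sub_one_of_pos hpos
      linarith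
  intro k
  induction k with
  | zero =>
    intro h
    have h1 := h 1 le_rfl (by omega)
    rw [Function.iterate_one] at h1
    have hb := ex_base 2 0 le_rfl
    have hq : (1:ℝ) * Real.exp (-(s * (Real.log s / s))) ≤ Real.log s / s := by
      rw [mul_div_cancel₀ _ hs0.ne', Real.exp_neg, Real.exp_log hs0, one_mul,
        inv_eq_one_div]
      gcongr
      linarith
    have := ex_step (k := 0) hs hb zero_le_one (q := Real.log s / s) (by positivity) (by
      rw [div_le_one hs0]
      have := hlogle 1 (fun i h1 h2 => h i h1 (by omega))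
      rw [Function.iterate_one] at this
      exact this) hq
    simpa using this
  | succ k ih =>
    intro h
    have hprev := ih (fun j h1 h2 => h j h1 (by omega))
    have h1 := h (k + 1) (by omega) (by omega)
    have h2 := h (k + 2) (by omega) le_rfl
    have e : Real.log^[k + 2] (s:ℝ) = Real.log (Real.log^[k + 1] (s:ℝ)) :=
      Function.iterate_succ_apply' Real.log (k + 1) (s:ℝ)
    have hq : (2 * (Real.log^[k + 1] (s:ℝ) / s)) *
        Real.exp (-(s * (Real.log^[k + 2] (s:ℝ) / s))) ≤ Real.log^[k + 2] (s:ℝ) / s := by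
      rw [mul_div_cancel₀ _ hs0.ne', Real.exp_neg]
      have e2 : Real.exp (Real.log^[k + 2] (s:ℝ)) = Real.log^[k + 1] (s:ℝ) := by
        rw [e, Real.exp_log (by linarith)]
      rw [e2]
      have h3 : Real.log^[k + 1] (s:ℝ) ≠ 0 := by linarith
      have e3 : (2 * (Real.log^[k + 1] (s:ℝ) / s)) * (Real.log^[k + 1] (s:ℝ))⁻¹ = 2 / s := by
        field_simp
      rw [e3]
      gcongr
    have := ex_step (k := k + 1) hs hprev (by
      have : 0 ≤ Real.log^[k + 1] (s:ℝ) / s := by positivity
      linarith) (q := Real.log^[k + 2] (s:ℝ) / s) (by positivity) (by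
      rw [div_le_one hs0]
      exact hlogle (k + 2) (fun i h1 h2 => h i h1 (by omega))) hq
    have e4 : (k + 1 + 1) * s = (k + 1) * s + s := by ring
    rw [e4]
    exact this

end Pool.Agent.R49.KR.Low
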