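import Pool.Agent.R49.KR.Low

set_option autoImplicit false

open Finset
open scoped Classical

noncomputable section

namespace Pool.Agent.R49.KR.Low

theorem exp_iter_le_log (m : ℕ) : ∀ {x y : ℝ}, Real.exp^[m] x ≤ y → x ≤ Real.log^[m] y := by
  induction m with
  | zero => intro x y h; exact h
  | succ m ih =>
    intro x y h
    rw [Function.iterate_succ_apply'] at h
    have hy : 0 < y := lt_of_lt_of_le (Real.exp_pos _) h
    rw [Function.iterate_succ_apply]
    apply ih
    rw [Real.le_log_iff_exp_le hy]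
    exact h

theorem exp_iter_mono {j m : ℕ} (h : j ≤ m) (x : ℝ) : Real.exp^[j] x ≤ Real.exp^[m] x := by
  induction m with
  | zero =>
    have : j = 0 := by omega
    subst this
    exact le_rfl
  | succ m ih =>
    rcases Nat.lt_or_ge j (m + 1) with h1 | h1
    · refine (ih (by omega)).trans ?_
      rw [Function.iterate_succ_apply']
      have := Real.add_one_le_exp (Real.exp^[m] x)
      linarith
    · have : j = m + 1 := by omega
      subst this
      exact le_rfl

theorem log_iter_mono (m : ℕ) : ∀ {x y : ℝ}, x ≤ y → (∀ j, j < m → 0 < Real.log^[j] x) →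
    Real.log^[m] x ≤ Real.log^[m] y := by
  induction m with
  | zero => intro x y h _; exact h
  | succ m ih =>
    intro x y h hj
    have h1 := ih h (fun j hjm => hj j (by omega))
    rw [Function.iterate_succ_apply', Function.iterate_succ_apply']
    exact Real.log_le_log (hj m (by omega)) h1

/-- A graph with a measure has large fractional chromatic number. -/
theorem frac_ge {V : Type} [Fintype V] {G : SimpleGraph V} {μ : V → ℝ} {p : ℝ} (hp : 0 < p)
    (h : Meas G μ p) (w : Finset V → ℝ) (w0 : ∀ I, 0 ≤ w I)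
    (w1 : ∀ I, w I ≠ 0 → G.IsIndepSet (I : Set V))
    (w2 : ∀ v, 1 ≤ ∑ I ∈ Finset.univ.filter (fun I : Finset V => v ∈ I), w I) :
    1 / p ≤ ∑ I, w I := by
  rw [div_le_iff₀ hp]
  calc (1:ℝ) = ∑ v, μ v * 1 := by simp [h.2.1]
    _ ≤ ∑ v, μ v * ∑ I ∈ Finset.univ.filter (fun I : Finset V => v ∈ I), w I :=
        Finset.sum_le_sum fun v _ => mul_le_mul_of_nonneg_left (w2 v) (h.1 v)
    _ = ∑ v, ∑ I, (if v ∈ I then μ v * w I else 0) := by
        apply Finset.sum_congr rfl
        intro v _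
        rw [Finset.mul_sum, Finset.sum_filter]
    _ = ∑ I, w I * ∑ v ∈ I, μ v := by
        rw [Finset.sum_comm]
        apply Finset.sum_congr rfl
        intro I _
        rw [Finset.sum_ite_mem, Finset.univ_inter, Finset.mul_sum]
        apply Finset.sum_congr rfl
        intro v _
        ring
    _ ≤ ∑ I, w I * p := by
        apply Finset.sum_le_sum
        intro I _
        by_cases hI : w I = 0
        · rw [hI, zero_mul, zero_mul]
        · exact mul_le_mul_of_nonneg_left (h.2.2 I (w1 I hI)) (w0 I)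
    _ = (∑ I, w I) * p := by rw [Finset.sum_mul]

/-- Transfer to `Fin n`. -/
theorem ex_fin {k D : ℕ} {p : ℝ} (h : Ex k D p) : ∃ (n : ℕ) (G : SimpleGraph (Fin n))
    (μ : Fin n → ℝ), Degen G D ∧ G.CliqueFree k ∧ Meas G μ p := by
  obtain ⟨V, hV, G, μ, h1, h2, h3⟩ := h
  let e := Fintype.equivFin V
  refine ⟨Fintype.card V, G.comap e.symm, μ ∘ e.symm, ?_, ?_, ?_, ?_, ?_⟩
  · intro S hS
    obtain ⟨v, hv, hc⟩ := h1 (S.map e.symm.toEmbedding) (hS.map)
    rw [Finset.mem_map] at hv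
    obtain ⟨x, hx, rfl⟩ := hv
    refine ⟨x, hx, le_trans ?_ hc⟩
    apply Finset.card_le_card_of_injOn e.symm
    · intro u hu
      rw [Finset.mem_coe, Finset.mem_filter] at hu ⊢
      exact ⟨Finset.mem_map.2 ⟨u, hu.1, rfl⟩, hu.2⟩
    · exact e.symm.injective.injOn
  · intro K hK
    apply h2 (K.map e.symm.toEmbedding)
    refine ⟨?_, by rw [Finset.card_map]; exact hK.2⟩
    intro a ha b hb hab
    rw [Finset.mem_coe, Finset.mem_map] at ha hb
    obtain ⟨x, hx, rfl⟩ := ha
    obtain ⟨y, hy, rfl⟩ := hb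
    exact hK.1 hx hy (fun h => hab (by rw [h]))
  · intro v; exact h3.1 _
  · rw [← h3.2.1]
    exact Equiv.sum_comp e.symm μ
  · intro I hI
    have := h3.2.2 (I.map e.symm.toEmbedding) (by
      intro a ha b hb hab hadj
      rw [Finset.mem_coe, Finset.mem_map] at ha hb
      obtain ⟨x, hx, rfl⟩ := ha
      obtain ⟨y, hy, rfl⟩ := hb
      exact hI hx hy (fun h => hab (by rw [h])) hadj)
    rw [Finset.sum_map] at this
    exact this

/-- The lower bound. -/
theorem lower (r : ℕ) (hr : 3 ≤ r) : ∃ c : ℝ, 0 < c ∧ ∃ d₀ : ℕ, ∀ d : ℕ, d₀ ≤ d →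
      ∃ (n : ℕ) (G : SimpleGraph (Fin n)),
        G.CliqueFree r ∧
        (∀ S : Finset (Fin n), S.Nonempty →
            ∃ v ∈ S, (S.filter (fun u => G.Adj v u)).card ≤ d) ∧
        ∀ w : Finset (Fin n) → ℝ,
          (∀ I, 0 ≤ w I) →
          (∀ I, w I ≠ 0 → G.IsIndepSet (↑I : Set (Fin n))) →
          (∀ v : Fin n, 1 ≤ ∑ I ∈ Finset.univ.filter (fun I : Finset (Fin n) => v ∈ I), w I) →
          c * (d : ℝ) / Real.log^[r - 2] (d:ℝ) ≤ ∑ I, w I := by
  obtain ⟨k, rfl⟩ : ∃ k, r = k + 3 := ⟨r - 3, by omega⟩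
  have e5 : k + 3 - 2 = k + 1 := by omega
  rw [e5]
  refine ⟨1 / (4 * ((k:ℝ) + 1)), by positivity,
    (k + 1) * (⌈Real.exp^[k + 1] (2:ℝ)⌉₊ + 1), ?_⟩
  intro d hd
  set s : ℕ := d / (k + 1) with hs
  have hk0 : (0:ℝ) < (k:ℝ) + 1 := by positivity
  have hs1 : ⌈Real.exp^[k + 1] (2:ℝ)⌉₊ + 1 ≤ s := by
    rw [hs, Nat.le_div_iff_mul_le (by omega)]
    rw [mul_comm]
    exact hd
  have hs0 : 0 < s := by omega
  have hsR : (0:ℝ) < (s:ℝ) := by exact_mod_cast hs0
  have hsexp : Real.exp^[k + 1] (2:ℝ) ≤ s := by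
    refine (Nat.le_ceil _).trans ?_
    exact_mod_cast (by omega : ⌈Real.exp^[k + 1] (2:ℝ)⌉₊ ≤ s)
  have hsd : (k + 1) * s ≤ d := Nat.mul_div_le d (k + 1)
  have hsd2 : d ≤ 2 * ((k + 1) * s) := by
    have h1 := Nat.div_add_mod d (k + 1)
    have h2 := Nat.mod_lt d (show 0 < k + 1 by omega)
    rw [← hs] at h1
    have h3 : k + 1 ≤ (k + 1) * s := Nat.le_mul_of_pos_right _ hs0
    omega
  have hlog : ∀ j, 1 ≤ j → j ≤ k + 1 → 2 ≤ Real.log^[j] (s:ℝ) := fun j _ h2 =>
    exp_iter_le_log j ((exp_iter_mono h2 2).trans hsexp)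
  obtain ⟨n, G, μ, g1, g2, g3⟩ := ex_fin (ex_all hs0 k hlog)
  refine ⟨n, G, g2, ?_, ?_⟩
  · intro S hS
    obtain ⟨v, hv, hc⟩ := g1 S hS
    exact ⟨v, hv, hc.trans hsd⟩
  · intro w w0 w1 w2
    have hL := hlog (k + 1) (by omega) le_rfl
    have hLd : Real.log^[k + 1] (s:ℝ) ≤ Real.log^[k + 1] (d:ℝ) := by
      apply log_iter_mono
      · have : s ≤ d := by
          have := Nat.le_mul_of_pos_left s (show 0 < k + 1 by omega)
          omega
        exact_mod_cast this
      · intro j hj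
        rcases Nat.eq_zero_or_pos j with h0 | h0
        · subst h0; exact hsR
        · linarith [hlog j h0 (by omega)]
    have hmain := frac_ge (by positivity) g3 w w0 w1 (fun v => by convert w2 v)
    refine le_trans ?_ hmain
    have hd2 : (d:ℝ) ≤ 2 * (((k:ℝ) + 1) * s) := by exact_mod_cast hsd2
    rw [div_le_div_iff₀ (by linarith) (by positivity)]
    have e1 : 1 / (4 * ((k:ℝ) + 1)) * (d:ℝ) * (2 * (Real.log^[k + 1] (s:ℝ) / s)) =
        (d / (2 * (((k:ℝ) + 1) * s))) * Real.log^[k + 1] (s:ℝ) := by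
      field_simp
      ring
    rw [e1]
    apply mul_le_mul _ hLd (by linarith) zero_le_one
    rw [div_le_one (by positivity)]
    exact hd2

end Pool.Agent.R49.KR.Low
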