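import Mathlib

set_option autoImplicit false

open Finset
open scoped Classical

noncomputable section

namespace Pool.Agent.R49.KR

variable {S : Type} [Fintype S] [Inhabited S]

/-- A family of (signed) transition kernels which only look at the past. -/
def Adapted {n : ℕ} (k : Fin n → (Fin n → S) → S → ℝ) : Prop :=
  ∀ x s t, (∀ y, y < x → s y = t y) → k x s = k x t

/-- The product of adapted kernels of total mass one has total mass one. -/
theorem sum_prod_kernel : ∀ (n : ℕ) (k : Fin n → (Fin n → S) → S → ℝ), Adapted k →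
    (∀ x s, ∑ σ, k x s σ = 1) → ∑ s : Fin n → S, ∏ x, k x s (s x) = 1 := by
  intro n
  induction n with
  | zero =>
    intro k _ _
    simp
  | succ n ih =>
    intro k hk h1
    have key := ih (fun x s => k x.castSucc (Fin.snoc (α := fun _ => S) s default)) (by
        intro x s t hst
        apply hk
        intro y hy
        have hyn : (y : ℕ) < n := lt_of_lt_of_le (Fin.lt_def.1 hy) (by simp)
        obtain ⟨z, rfl⟩ : ∃ z : Fin n, y = z.castSucc := ⟨⟨y, hyn⟩, rfl⟩
        rw [Fin.snoc_castSucc, Fin.snoc_castSucc]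
        exact hst z (by simpa using hy)) (fun x s => h1 _ _)
    rw [← key]
    rw [← (Fin.snocEquiv (fun _ : Fin (n + 1) => S)).sum_comp]
    rw [Fintype.sum_prod_type, Finset.sum_comm]
    apply Finset.sum_congr rfl
    intro s _
    have e : ∀ σ : S, ∏ x : Fin (n + 1), k x (Fin.snocEquiv (fun _ => S) (σ, s))
        ((Fin.snocEquiv (fun _ : Fin (n + 1) => S) (σ, s)) x) =
        (∏ x : Fin n, k x.castSucc (Fin.snoc (α := fun _ => S) s default) (s x)) *
          k (Fin.last n) (Fin.snoc (α := fun _ => S) s default) σ := by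
      intro σ
      rw [Fin.prod_univ_castSucc]
      congr 1
      · apply Finset.prod_congr rfl
        intro x _
        have : k x.castSucc (Fin.snocEquiv (fun _ => S) (σ, s)) =
            k x.castSucc (Fin.snoc (α := fun _ => S) s default) := by
          apply hk
          intro y hy
          have hyn : (y : ℕ) < n := lt_of_lt_of_le (Fin.lt_def.1 hy) (by simp)
          obtain ⟨z, rfl⟩ : ∃ z : Fin n, y = z.castSucc := ⟨⟨y, hyn⟩, rfl⟩
          simp [Fin.snocEquiv]
        rw [this]
        simp [Fin.snocEquiv]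
      · have : k (Fin.last n) (Fin.snocEquiv (fun _ => S) (σ, s)) =
            k (Fin.last n) (Fin.snoc (α := fun _ => S) s default) := by
          apply hk
          intro y hy
          have hyn : (y : ℕ) < n := by simpa [Fin.lt_def] using hy
          obtain ⟨z, rfl⟩ : ∃ z : Fin n, y = z.castSucc := ⟨⟨y, hyn⟩, rfl⟩
          simp [Fin.snocEquiv]
        rw [this]
        simp [Fin.snocEquiv]
    simp only [e]
    rw [← Finset.mul_sum, h1, mul_one]

variable {n : ℕ}

/-- Conditional expectation formula. -/
theorem sum_prod_step {k : Fin n → (Fin n → S) → S → ℝ} (hk : Adapted k)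
    (h1 : ∀ x s, ∑ σ, k x s σ = 1) (x : Fin n) (a : (Fin n → S) → S → ℝ)
    (ha : ∀ s t, (∀ y, y < x → s y = t y) → a s = a t) :
    ∑ s : Fin n → S, (∏ y, k y s (s y)) * a s (s x) =
      ∑ s : Fin n → S, (∏ y, k y s (s y)) * ∑ σ, k x s σ * a s σ := by
  have key := sum_prod_kernel n (fun y s σ => if y = x then
      k x s σ * (1 + a s σ - ∑ τ, k x s τ * a s τ) else k y s σ) (by
        intro y s t hst
        by_cases hy : y = x
        · subst hy
          funext σ
          simp only [if_true]
          rw [hk y s t hst, ha s t hst]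
        · funext σ
          simp only [if_neg hy]
          rw [hk y s t hst]) (by
        intro y s
        by_cases hy : y = x
        · subst hy
          simp only [if_true]
          have : ∀ σ, k y s σ * (1 + a s σ - ∑ τ, k y s τ * a s τ) =
              k y s σ + k y s σ * a s σ - k y s σ * ∑ τ, k y s τ * a s τ := fun σ => by ring
          simp only [this]
          rw [Finset.sum_sub_distrib, Finset.sum_add_distrib, ← Finset.sum_mul, h1]
          ring
        · simp only [if_neg hy]
          exact h1 y s)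
  have e : ∀ s : Fin n → S, (∏ y, (if y = x then
      k x s (s y) * (1 + a s (s y) - ∑ τ, k x s τ * a s τ) else k y s (s y))) =
      (∏ y, k y s (s y)) * (1 + a s (s x) - ∑ τ, k x s τ * a s τ) := by
    intro s
    rw [← Finset.mul_prod_erase Finset.univ _ (Finset.mem_univ x),
      ← Finset.mul_prod_erase Finset.univ (fun y => k y s (s y)) (Finset.mem_univ x)]
    rw [if_pos rfl]
    have : ∏ y ∈ Finset.univ.erase x, (if y = x then
      k x s (s y) * (1 + a s (s y) - ∑ τ, k x s τ * a s τ) else k y s (s y)) =
      ∏ y ∈ Finset.univ.erase x, k y s (s y) := by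
      apply Finset.prod_congr rfl
      intro y hy
      rw [if_neg (Finset.ne_of_mem_erase hy)]
    rw [this]
    ring
  simp only [e] at key
  have h2 := sum_prod_kernel n k hk h1
  have h3 : ∀ s : Fin n → S, (∏ y, k y s (s y)) * (1 + a s (s x) - ∑ τ, k x s τ * a s τ) =
      (∏ y, k y s (s y)) + (∏ y, k y s (s y)) * a s (s x) -
        (∏ y, k y s (s y)) * ∑ τ, k x s τ * a s τ := fun s => by ring
  simp only [h3] at key
  rw [Finset.sum_sub_distrib, Finset.sum_add_distrib, h2] at key
  linarith

/-- Tilting: upper bound. -/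
theorem tilt_le {k : Fin n → (Fin n → S) → S → ℝ} (hk : Adapted k)
    (k0 : ∀ x s σ, 0 ≤ k x s σ)
    (φ : Fin n → S → ℝ) (hφ : ∀ x σ, 0 ≤ φ x σ)
    (hpos : ∀ x s, 0 < ∑ σ, k x s σ * φ x σ)
    (G : (Fin n → S) → ℝ) (B : ℝ)
    (hB : ∀ s, (∏ x, ∑ σ, k x s σ * φ x σ) * G s ≤ B) :
    ∑ s : Fin n → S, (∏ x, k x s (s x)) * ((∏ x, φ x (s x)) * G s) ≤ B := by
  have key := sum_prod_kernel n (fun x s σ => k x s σ * φ x σ / ∑ τ, k x s τ * φ x τ) (by
      intro x s t hst
      funext σ
      dsimp only
      rw [hk x s t hst]) (by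
      intro x s
      rw [← Finset.sum_div, div_self (hpos x s).ne'])
  calc ∑ s : Fin n → S, (∏ x, k x s (s x)) * ((∏ x, φ x (s x)) * G s)
      = ∑ s : Fin n → S, (∏ x, k x s (s x) * φ x (s x) / ∑ τ, k x s τ * φ x τ) *
          ((∏ x, ∑ σ, k x s σ * φ x σ) * G s) := by
        apply Finset.sum_congr rfl
        intro s _
        rw [Finset.prod_div_distrib, Finset.prod_mul_distrib]
        have : (∏ x, ∑ σ, k x s σ * φ x σ) ≠ 0 := by
          apply Finset.prod_ne_zero_iff.2
          intro x _
          exact (hpos x s).ne'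
        field_simp
    _ ≤ ∑ s : Fin n → S, (∏ x, k x s (s x) * φ x (s x) / ∑ τ, k x s τ * φ x τ) * B := by
        apply Finset.sum_le_sum
        intro s _
        apply mul_le_mul_of_nonneg_left (hB s)
        apply Finset.prod_nonneg
        intro x _
        exact div_nonneg (mul_nonneg (k0 _ _ _) (hφ _ _)) (hpos x s).le
    _ = B := by rw [← Finset.sum_mul, key, one_mul]

/-- Tilting: exact version. -/
theorem tilt_eq {k : Fin n → (Fin n → S) → S → ℝ} (hk : Adapted k)
    (φ : Fin n → S → ℝ)
    (h1 : ∀ x s, ∑ σ, k x s σ * φ x σ = 1) :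
    ∑ s : Fin n → S, (∏ x, k x s (s x)) * (∏ x, φ x (s x)) = 1 := by
  have key := sum_prod_kernel n (fun x s σ => k x s σ * φ x σ) (by
      intro x s t hst
      funext σ
      dsimp only
      rw [hk x s t hst]) h1
  rw [← key]
  apply Finset.sum_congr rfl
  intro s _
  rw [Finset.prod_mul_distrib]

end Pool.Agent.R49.KR
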