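import Pool.Agent.R49.KR.Asm
import Pool.Agent.Y415.Frac.S

set_option autoImplicit false

open Finset
open scoped Classical

noncomputable section

namespace Pool.Agent.R49.KR

open Pool.Agent.Y415.Frac (Cl mul_exp_le iter_ge iter_mono mul_iter_le iter_log graph_order)

/-- The parameters: `(Φ_J, T_{J+1})`. -/
def st (a C : ℝ) : ℕ → ℝ × ℝ
  | 0 => (2 * a, 8 * a * (C * Real.exp 1 + 1))
  | (j + 1) => (256 * a ^ 4 * C ^ 2 * (st a C j).1 ^ 7 *
        Real.exp (6 * (st a C j).1 ^ 2 * (st a C j).2 + 3),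
      8 * a * (C * Real.exp (2 * (st a C j).1 ^ 2 * (st a C j).2 + 1) + 1))

section
variable {a C : ℝ} (ha : 1 ≤ a) (hC : 1 ≤ C)

include ha hC in
theorem st_step (j : ℕ) (h1 : 2 * a ≤ (st a C j).1) (h2 : C ≤ (st a C j).2) :
    (st a C j).1 ≤ (st a C (j + 1)).1 ∧ (st a C j).2 ≤ (st a C (j + 1)).2 := by
  set F := (st a C j).1 with hF
  set T := (st a C j).2 with hT
  have hF1 : 1 ≤ F := by linarith
  have hT1 : 1 ≤ T := by linarith
  have hE : 1 ≤ Real.exp (6 * F ^ 2 * T + 3) := Real.one_le_exp (by positivity)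
  constructor
  · show F ≤ 256 * a ^ 4 * C ^ 2 * F ^ 7 * Real.exp (6 * F ^ 2 * T + 3)
    have e1 : 1 ≤ a ^ 4 := one_le_pow₀ ha
    have e2 : 1 ≤ C ^ 2 := one_le_pow₀ hC
    have e3 : F ≤ F ^ 7 := le_self_pow₀ hF1 (by norm_num)
    calc F ≤ F ^ 7 := e3
      _ = 1 * 1 * 1 * F ^ 7 * 1 := by ring
      _ ≤ 256 * a ^ 4 * C ^ 2 * F ^ 7 * Real.exp (6 * F ^ 2 * T + 3) := by
          gcongr
          norm_num
  · show T ≤ 8 * a * (C * Real.exp (2 * F ^ 2 * T + 1) + 1)
    have e1 : T ≤ Real.exp (2 * F ^ 2 * T + 1) := by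
      have h3 := Real.add_one_le_exp (2 * F ^ 2 * T + 1)
      have h4 : 1 ≤ F ^ 2 := one_le_pow₀ hF1
      nlinarith
    have e2 : Real.exp (2 * F ^ 2 * T + 1) ≤ C * Real.exp (2 * F ^ 2 * T + 1) :=
      le_mul_of_one_le_left (Real.exp_pos _).le hC
    have e3 : 0 ≤ C * Real.exp (2 * F ^ 2 * T + 1) := by positivity
    nlinarith

include ha hC in
theorem st_inv (j : ℕ) : 2 * a ≤ (st a C j).1 ∧ C ≤ (st a C j).2 := by
  induction j with
  | zero =>
    refine ⟨le_rfl, ?_⟩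
    show C ≤ 8 * a * (C * Real.exp 1 + 1)
    have : 1 ≤ Real.exp 1 := Real.one_le_exp (by norm_num)
    nlinarith [mul_le_mul_of_nonneg_left this (show (0:ℝ) ≤ C by linarith),
      mul_nonneg (show (0:ℝ) ≤ a - 1 by linarith) (show (0:ℝ) ≤ C * Real.exp 1 by positivity)]
  | succ j ih =>
    have := st_step ha hC j ih.1 ih.2
    exact ⟨ih.1.trans this.1, ih.2.trans this.2⟩

/-- the exponent -/
def ZZ (a C : ℝ) (j : ℕ) : ℝ := (st a C j).1 ^ 2 * (st a C j).2

include ha hC in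
theorem ZZ_ge (j : ℕ) : (st a C j).1 ≤ ZZ a C j ∧ C ≤ ZZ a C j ∧ 1 ≤ ZZ a C j := by
  obtain ⟨h1, h2⟩ := st_inv ha hC j
  unfold ZZ
  set F := (st a C j).1
  set T := (st a C j).2
  have hF1 : 1 ≤ F := by linarith
  have hT1 : 1 ≤ T := by linarith
  have hF2 : F ≤ F ^ 2 := le_self_pow₀ hF1 (by norm_num)
  have hF3 : 1 ≤ F ^ 2 := one_le_pow₀ hF1
  refine ⟨by nlinarith, by nlinarith, by nlinarith⟩

include ha hC in
theorem ZZ_step (j : ℕ) :
    ZZ a C (j + 1) ≤ Real.exp (((256 * a ^ 4) ^ 2 * (16 * a) + 40) * ZZ a C j) := by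
  obtain ⟨h1, h2⟩ := st_inv ha hC j
  obtain ⟨z1, z2, z3⟩ := ZZ_ge ha hC j
  have e : ZZ a C (j + 1) = (256 * a ^ 4 * C ^ 2 * (st a C j).1 ^ 7 *
        Real.exp (6 * (st a C j).1 ^ 2 * (st a C j).2 + 3)) ^ 2 *
      (8 * a * (C * Real.exp (2 * (st a C j).1 ^ 2 * (st a C j).2 + 1) + 1)) := rfl
  rw [e]
  have eZ : (st a C j).1 ^ 2 * (st a C j).2 = ZZ a C j := rfl
  rw [mul_assoc 6, mul_assoc 2, eZ]
  set Z := ZZ a C j
  set F := (st a C j).1
  have hF0 : 0 ≤ F := by linarith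
  have hZ0 : 0 ≤ Z := by linarith
  have ha0 : 0 ≤ a := by linarith
  have b1 : (256 * a ^ 4 * C ^ 2 * F ^ 7 * Real.exp (6 * Z + 3)) ^ 2 ≤
      (256 * a ^ 4 * Z ^ 2 * Z ^ 7 * Real.exp (6 * Z + 3)) ^ 2 := by
    have hC0 : 0 ≤ C := by linarith
    gcongr
  have b2 : 8 * a * (C * Real.exp (2 * Z + 1) + 1) ≤ 16 * a * (Z * Real.exp (2 * Z + 1)) := by
    have h3 : 1 ≤ Real.exp (2 * Z + 1) := Real.one_le_exp (by positivity)
    have h4 : C * Real.exp (2 * Z + 1) ≤ Z * Real.exp (2 * Z + 1) :=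
      mul_le_mul_of_nonneg_right z2 (Real.exp_pos _).le
    have h5 : 1 ≤ Z * Real.exp (2 * Z + 1) := by nlinarith
    nlinarith
  calc _ ≤ (256 * a ^ 4 * Z ^ 2 * Z ^ 7 * Real.exp (6 * Z + 3)) ^ 2 *
        (16 * a * (Z * Real.exp (2 * Z + 1))) := by
        apply mul_le_mul b1 b2 (by positivity) (by positivity)
    _ = ((256 * a ^ 4) ^ 2 * (16 * a)) * Z ^ 19 *
        (Real.exp (6 * Z + 3) * Real.exp (6 * Z + 3) * Real.exp (2 * Z + 1)) := by ring
    _ = ((256 * a ^ 4) ^ 2 * (16 * a)) * Z ^ 19 * Real.exp (14 * Z + 7) := by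
        rw [← Real.exp_add, ← Real.exp_add]
        congr 2
        ring
    _ ≤ Real.exp ((256 * a ^ 4) ^ 2 * (16 * a)) * Real.exp Z ^ 19 * Real.exp (14 * Z + 7) := by
        have h3 : (256 * a ^ 4) ^ 2 * (16 * a) ≤ Real.exp ((256 * a ^ 4) ^ 2 * (16 * a)) := by
          have := Real.add_one_le_exp ((256 * a ^ 4) ^ 2 * (16 * a))
          linarith
        have h4 : Z ≤ Real.exp Z := by
          have := Real.add_one_le_exp Z
          linarith
        gcongr
    _ = Real.exp ((256 * a ^ 4) ^ 2 * (16 * a) + 33 * Z + 7) := by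
        rw [← Real.exp_nat_mul, ← Real.exp_add, ← Real.exp_add]
        congr 1
        push_cast
        ring
    _ ≤ _ := by
        apply Real.exp_le_exp.2
        have h5 : 0 ≤ (256 * a ^ 4) ^ 2 * (16 * a) := by positivity
        nlinarith

include ha hC in
theorem ZZ_bound (j : ℕ) : ZZ a C j ≤
    Real.exp^[j] (((256 * a ^ 4) ^ 2 * (16 * a) + 40) ^ j * (128 * a ^ 3) * C) := by
  have hK : (1:ℝ) ≤ (256 * a ^ 4) ^ 2 * (16 * a) + 40 := by
    have : 0 ≤ (256 * a ^ 4) ^ 2 * (16 * a) := by positivity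
    linarith
  have ha3 : 1 ≤ a ^ 3 := one_le_pow₀ ha
  induction j with
  | zero =>
    show (2 * a) ^ 2 * (8 * a * (C * Real.exp 1 + 1)) ≤ _
    rw [Function.iterate_zero, id, pow_zero, one_mul]
    have h1 : Real.exp 1 ≤ 3 := by
      have := Real.exp_one_lt_d9
      linarith
    have h2 : C * Real.exp 1 + 1 ≤ 4 * C := by nlinarith
    have h3 : (0:ℝ) ≤ 32 * a ^ 3 := by positivity
    nlinarith [mul_le_mul_of_nonneg_left h2 h3]
  | succ j ih =>
    rw [Function.iterate_succ_apply']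
    refine (ZZ_step ha hC j).trans ?_
    apply Real.exp_le_exp.2
    have hx : (1:ℝ) ≤ ((256 * a ^ 4) ^ 2 * (16 * a) + 40) ^ j * (128 * a ^ 3) * C := by
      have h1 := one_le_pow₀ (n := j) hK
      have h2 : 1 ≤ ((256 * a ^ 4) ^ 2 * (16 * a) + 40) ^ j * (128 * a ^ 3) := by nlinarith
      nlinarith
    calc ((256 * a ^ 4) ^ 2 * (16 * a) + 40) * ZZ a C j
        ≤ ((256 * a ^ 4) ^ 2 * (16 * a) + 40) *
          Real.exp^[j] (((256 * a ^ 4) ^ 2 * (16 * a) + 40) ^ j * (128 * a ^ 3) * C) :=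
          mul_le_mul_of_nonneg_left ih (by linarith)
      _ ≤ Real.exp^[j] (((256 * a ^ 4) ^ 2 * (16 * a) + 40) *
          (((256 * a ^ 4) ^ 2 * (16 * a) + 40) ^ j * (128 * a ^ 3) * C)) :=
          mul_iter_le hK hx j
      _ = _ := by
          congr 1
          ring

end

/-- Explicit threshold for `d`. -/
theorem explicit (R : ℕ) : ∃ K : ℝ, 1 ≤ K ∧ ∀ C : ℝ, 1 ≤ C → ∀ d : ℕ,
      Real.exp^[R + 1] (K * C) ≤ d → ∀ (n : ℕ) (N : Fin n → Finset (Fin n))
      (adj : Fin n → Fin n → Prop), (∀ x, ∀ y ∈ N x, y < x) → (∀ x, (N x).card ≤ d) →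
      (∀ z y, y ∈ N z → adj z y ∧ adj y z) →
      (∀ u, ∀ x ∈ N u, Cl adj (R + 1) (N x ∩ N u) = ∅) →
      ∃ w : Finset (Fin n) → ℝ, (∀ I, 0 ≤ w I) ∧ (∀ I, w I ≠ 0 → ∀ x ∈ I, ∀ y ∈ N x, y ∉ I) ∧
      (∀ v, C / (2 * d) ≤ ∑ I ∈ Finset.univ.filter (fun I : Finset (Fin n) => v ∈ I), w I) ∧
      ∑ I, w I = 1 := by
  set a : ℝ := (R:ℝ) + 1 with haR
  have ha : 1 ≤ a := by
    have : (0:ℝ) ≤ (R:ℝ) := Nat.cast_nonneg _
    linarith
  have hK1 : (1:ℝ) ≤ (256 * a ^ 4) ^ 2 * (16 * a) + 40 := by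
    have : 0 ≤ (256 * a ^ 4) ^ 2 * (16 * a) := by positivity
    linarith
  have ha3 : 1 ≤ a ^ 3 := one_le_pow₀ ha
  have hKR : 1 ≤ ((256 * a ^ 4) ^ 2 * (16 * a) + 40) ^ R * (128 * a ^ 3) := by
    have h1 := one_le_pow₀ (n := R) hK1
    nlinarith
  refine ⟨19 * (((256 * a ^ 4) ^ 2 * (16 * a) + 40) ^ R * (128 * a ^ 3)), by linarith, ?_⟩
  intro C hC d hd n N adj hN hNd hadj hCl
  have hC0 : 0 < C := by linarith
  have ha0 : 0 < a := by linarith
  have hinv := st_inv ha hC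
  have hZ := ZZ_bound ha hC R
  obtain ⟨z1, z2, z3⟩ := ZZ_ge ha hC R
  have hexp : Real.exp (19 * ZZ a C R) ≤ d := by
    refine le_trans ?_ hd
    rw [Function.iterate_succ_apply']
    apply Real.exp_le_exp.2
    calc 19 * ZZ a C R ≤ 19 * Real.exp^[R] (((256 * a ^ 4) ^ 2 * (16 * a) + 40) ^ R *
          (128 * a ^ 3) * C) := by linarith
      _ ≤ Real.exp^[R] (19 * (((256 * a ^ 4) ^ 2 * (16 * a) + 40) ^ R *
          (128 * a ^ 3) * C)) := mul_iter_le (by norm_num) (by nlinarith) R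
      _ = _ := by
          congr 1
          ring
  have hdR : (0:ℝ) < d := lt_of_lt_of_le (Real.exp_pos _) hexp
  have hd0 : 0 < d := by exact_mod_cast hdR
  have hΦp : ∀ j, 0 < (st a C j).1 := fun j => by linarith [(hinv j).1]
  have hΦeq : ∀ j, 2 * a / (2 * a / (st a C j).1) = (st a C j).1 := by
    intro j
    have := hΦp j
    field_simp
  have hmono : Monotone (fun j => (st a C j).1) := monotone_nat_of_le_succ fun j =>
    (st_step ha hC j (hinv j).1 (hinv j).2).1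
  refine core (T := fun j => match j with | 0 => 0 | (i + 1) => (st a C i).2)
    (η := fun j => 2 * a / (st a C j).1) (thr := fun j => 1 / (2 * a * (st a C j).1 ^ 2))
    hN hd0 hNd hadj hCl ?_ ?_ ?_ ?_ ?_ rfl hC ?_ ?_ ?_ ?_
  · show 2 * a / (2 * a) = 1
    rw [div_self (by positivity)]
  · intro j
    have := hΦp j
    positivity
  · intro j
    rw [div_le_one (hΦp j)]
    exact (hinv j).1
  · intro i j hij
    have := hΦp i
    have := hmono hij
    dsimp only at this ⊢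
    gcongr
  · apply monotone_nat_of_le_succ
    intro j
    cases j with
    | zero =>
      show (0:ℝ) ≤ (st a C 0).2
      linarith [(hinv 0).2]
    | succ i => exact (st_step ha hC i (hinv i).1 (hinv i).2).2
  · intro j
    rw [hΦeq j]
  · intro J _
    dsimp only
    rw [hΦeq J]
    have h1 := hΦp J
    have h2 := Real.exp_pos (6 * (st a C J).1 ^ 2 * (st a C J).2 + 3)
    have e : (st a C (J + 1)).1 = 256 * a ^ 4 * C ^ 2 * (st a C J).1 ^ 7 *
        Real.exp (6 * (st a C J).1 ^ 2 * (st a C J).2 + 3) := rfl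
    rw [e]
    apply le_of_eq
    field_simp
    ring
  · intro L _
    cases L with
    | zero =>
      dsimp only
      rw [mul_zero, zero_add]
      exact le_rfl
    | succ i =>
      dsimp only
      rw [Nat.add_sub_cancel, hΦeq i]
      exact le_rfl
  · dsimp only
    rw [hΦeq R]
    have h1 : 2 * (st a C R).1 * (st a C R).2 ≤ 2 * ZZ a C R := by
      have h3 := (hinv R).1
      have h4 := (hinv R).2
      have h5 : (st a C R).1 ≤ (st a C R).1 ^ 2 := le_self_pow₀ (by linarith) (by norm_num)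
      unfold ZZ
      nlinarith
    have h2 : 16 * C * Real.exp (2 * (st a C R).1 * (st a C R).2) ≤ d := by
      refine le_trans ?_ hexp
      have h16 : (16:ℝ) ≤ Real.exp 16 := by
        have := Real.add_one_le_exp (16:ℝ)
        linarith
      have hCe : C ≤ Real.exp (ZZ a C R) := by
        have := Real.add_one_le_exp (ZZ a C R)
        linarith
      calc 16 * C * Real.exp (2 * (st a C R).1 * (st a C R).2)
          ≤ Real.exp 16 * Real.exp (ZZ a C R) * Real.exp (2 * ZZ a C R) := by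
            apply mul_le_mul
            · exact mul_le_mul h16 hCe hC0.le (Real.exp_pos _).le
            · exact Real.exp_le_exp.2 h1
            · exact (Real.exp_pos _).le
            · positivity
        _ = Real.exp (16 + ZZ a C R + 2 * ZZ a C R) := by
            rw [← Real.exp_add, ← Real.exp_add]
        _ ≤ _ := by
            apply Real.exp_le_exp.2
            linarith
    rw [div_mul_eq_mul_div, div_le_div_iff₀ hdR (by norm_num)]
    linarith

/-- The quantitative upper bound. -/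
theorem upper (r : ℕ) (hr : 3 ≤ r) : ∃ K : ℝ, 0 < K ∧ ∃ d₀ : ℕ, ∀ d : ℕ, d₀ ≤ d →
      1 ≤ Real.log^[r - 2] (d:ℝ) ∧
      ∀ (n : ℕ) (G : SimpleGraph (Fin n)),
        G.CliqueFree r →
        (∀ S : Finset (Fin n), S.Nonempty →
            ∃ v ∈ S, (S.filter (fun u => G.Adj v u)).card ≤ d) →
        ∃ w : Finset (Fin n) → ℝ,
          (∀ I, 0 ≤ w I) ∧
          (∀ I, w I ≠ 0 → G.IsIndepSet (↑I : Set (Fin n))) ∧
          (∀ v : Fin n, 1 ≤ ∑ I ∈ Finset.univ.filter (fun I : Finset (Fin n) => v ∈ I), w I) ∧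
          (∑ I, w I) ≤ K * (d : ℝ) / Real.log^[r - 2] (d:ℝ) := by
  obtain ⟨R, rfl⟩ : ∃ R, r = R + 3 := ⟨r - 3, by omega⟩
  obtain ⟨K, hK, hmain⟩ := explicit R
  refine ⟨2 * K, by linarith, ⌈Real.exp^[R + 1] K⌉₊, ?_⟩
  intro d hd
  have e5 : R + 3 - 2 = R + 1 := by omega
  rw [e5]
  have hd' : Real.exp^[R + 1] K ≤ d := (Nat.le_ceil _).trans (by exact_mod_cast hd)
  obtain ⟨hL, hexp⟩ := iter_log (R + 1) hd'
  set L : ℝ := Real.log^[R + 1] (d:ℝ) with hLdef
  have hK0 : 0 < K := by linarith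
  have hL0 : 0 < L := by linarith
  refine ⟨by linarith, ?_⟩
  intro n G hG hdeg
  have hC1 : 1 ≤ L / K := by rwa [one_le_div hK0]
  have hC0 : 0 < L / K := by positivity
  have hd0 : (0:ℝ) < d := by
    have := iter_ge (x := K) hK (R + 1)
    linarith
  obtain ⟨σ, N, hmem, g1, g2, g3, g4⟩ := graph_order R d n G hG hdeg
  obtain ⟨w, w0, w1, w2, w4⟩ := hmain (L / K) hC1 d (by
    rw [mul_div_cancel₀ L hK0.ne', hexp]) n N _ g1 g2 g3 g4
  set s : ℝ := 2 * d / (L / K) with hs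
  have hs0 : 0 < s := by positivity
  refine ⟨fun I => s * w (σ.finsetCongr I), fun I => mul_nonneg hs0.le (w0 _), ?_, ?_, ?_⟩
  · intro I hI x hx y hy hxy hadj
    have hI' : w (σ.finsetCongr I) ≠ 0 := right_ne_zero_of_mul hI
    have hx' : σ x ∈ σ.finsetCongr I := by simpa using hx
    have hy' : σ y ∈ σ.finsetCongr I := by simpa using hy
    have hne : σ x ≠ σ y := fun h => hxy (σ.injective h)
    rcases lt_or_gt_of_ne hne with h | h
    · refine w1 _ hI' (σ y) hy' (σ x) ?_ hx'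
      rw [hmem]
      simp only [Equiv.symm_apply_apply]
      exact ⟨h, hadj.symm⟩
    · refine w1 _ hI' (σ x) hx' (σ y) ?_ hy'
      rw [hmem]
      simp only [Equiv.symm_apply_apply]
      exact ⟨h, hadj⟩
  · intro v
    rw [← Finset.mul_sum]
    have h := w2 (σ v)
    have e : ∑ I ∈ Finset.univ.filter (fun I : Finset (Fin n) => v ∈ I), w (σ.finsetCongr I) =
        ∑ I ∈ Finset.univ.filter (fun I : Finset (Fin n) => σ v ∈ I), w I := by
      rw [Finset.sum_filter, Finset.sum_filter,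
        ← Equiv.sum_comp σ.finsetCongr (fun I => if σ v ∈ I then w I else 0)]
      apply Finset.sum_congr rfl
      intro I _
      have : σ v ∈ σ.finsetCongr I ↔ v ∈ I := by simp
      simp only [this]
    rw [e]
    calc (1:ℝ) = s * (L / K / (2 * d)) := by rw [hs]; field_simp
      _ ≤ _ := mul_le_mul_of_nonneg_left h hs0.le
  · rw [← Finset.mul_sum, Equiv.sum_comp σ.finsetCongr (fun I => w I), w4, mul_one, hs]
    apply le_of_eq
    field_simp

end Pool.Agent.R49.KR
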