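import Pool.Agent.R49.KR.Meas
import Pool.Agent.R49.KR.Good

set_option autoImplicit false

open Finset
open scoped Classical

noncomputable section

namespace Pool.Agent.R49.KR

/-- The factor contributed to the weight of `v` by the outcome at `z`. -/
def fc {n : ℕ} {Λ : Type} (f : Fin n → Fin n → Λ → ℝ) (z v : Fin n) : Option (Option Λ) → ℝ
  | none => 1
  | some none => 0
  | some (some l) => f z v l

/-- The weight of `v`. -/
def Fv {n : ℕ} {Λ : Type} (N : Fin n → Finset (Fin n)) (f : Fin n → Fin n → Λ → ℝ) (v : Fin n)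
    (s : Fin n → Option (Option Λ)) : ℝ := ∏ z ∈ N v, fc f z v (s z)

/-- The data of the process. -/
structure Dat (n : ℕ) (Λ : Type) [Fintype Λ] where
  N : Fin n → Finset (Fin n)
  hN : ∀ x, ∀ y ∈ N x, y < x
  EE : ℕ → Fin n → Fin n → Finset (Fin n)
  hE : ∀ j x u, EE j x u ⊆ N x ∩ N u
  lev : Fin n → Fin n → ℕ
  R : ℕ
  hlev : ∀ x u, lev x u ≤ R
  hEu : ∀ j x u, ∀ z ∈ EE j x u, lev z u = j ∧ lev z x = j
  T : ℕ → ℝ
  thr : ℕ → ℝ
  m : Fin n → Λ → ℝ
  m0 : ∀ z l, 0 ≤ m z l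
  m1 : ∀ z, ∑ l, m z l = 1
  f : Fin n → Fin n → Λ → ℝ
  f0 : ∀ z v l, 0 ≤ f z v l
  f1 : ∀ v, ∀ z ∈ N v, ∑ l, m z l * f z v l = 2
  c : ℝ
  c0 : 0 ≤ c
  M : ℝ
  hcM : c * M ≤ 1 / 4

variable {n : ℕ} {Λ : Type} [Fintype Λ]

/-- Conditional inclusion probability. -/
def Dat.pr (D : Dat n Λ) (x : Fin n) (s : Fin n → Option (Option Λ)) : ℝ :=
  if GB D.N D.EE D.lev D.R D.T D.thr (fun y => if _h : y < x then Dat.pr D y s else 0) x x ∧
      Fv D.N D.f x s ≤ D.M
  then D.c * Fv D.N D.f x s else 0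
termination_by x
decreasing_by exact _h

theorem Dat.pr_eq (D : Dat n Λ) (x : Fin n) (s : Fin n → Option (Option Λ)) :
    D.pr x s = if GB D.N D.EE D.lev D.R D.T D.thr (fun y => D.pr y s) x x ∧
      Fv D.N D.f x s ≤ D.M then D.c * Fv D.N D.f x s else 0 := by
  rw [Dat.pr]
  have e1 : GB D.N D.EE D.lev D.R D.T D.thr (fun y => if _h : y < x then D.pr y s else 0) x x ↔
      GB D.N D.EE D.lev D.R D.T D.thr (fun y => D.pr y s) x x := by
    apply GB_congr D.hN D.hE
    intro z _ hz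
    simp [hz]
  by_cases hc : GB D.N D.EE D.lev D.R D.T D.thr (fun y => D.pr y s) x x ∧ Fv D.N D.f x s ≤ D.M
  · rw [if_pos hc, if_pos ⟨e1.2 hc.1, hc.2⟩]
  · rw [if_neg hc, if_neg (fun h => hc ⟨e1.1 h.1, h.2⟩)]

theorem fc_nonneg (D : Dat n Λ) (z v : Fin n) (σ : Option (Option Λ)) : 0 ≤ fc D.f z v σ := by
  rcases σ with _ | _ | l
  · exact zero_le_one
  · exact le_rfl
  · exact D.f0 z v l

theorem Fv_nonneg (D : Dat n Λ) (v : Fin n) (s : Fin n → Option (Option Λ)) :
    0 ≤ Fv D.N D.f v s :=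
  Finset.prod_nonneg fun z _ => fc_nonneg D z v (s z)

theorem Fv_congr (D : Dat n Λ) {v : Fin n} {s t : Fin n → Option (Option Λ)}
    (h : ∀ y, y < v → s y = t y) : Fv D.N D.f v s = Fv D.N D.f v t := by
  unfold Fv
  apply Finset.prod_congr rfl
  intro z hz
  rw [h z (D.hN v z hz)]

theorem Dat.pr_congr (D : Dat n Λ) (x : Fin n) : ∀ s t : Fin n → Option (Option Λ),
    (∀ y, y < x → s y = t y) → D.pr x s = D.pr x t := by
  induction x using WellFoundedLT.induction with
  | ind x ih =>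
    intro s t hst
    rw [D.pr_eq x s, D.pr_eq x t]
    have e1 : GB D.N D.EE D.lev D.R D.T D.thr (fun y => D.pr y s) x x ↔
        GB D.N D.EE D.lev D.R D.T D.thr (fun y => D.pr y t) x x := by
      apply GB_congr D.hN D.hE
      intro z _ hz
      exact ih z hz s t (fun y hy => hst y (hy.trans hz))
    rw [Fv_congr D hst]
    by_cases hc : GB D.N D.EE D.lev D.R D.T D.thr (fun y => D.pr y s) x x ∧ Fv D.N D.f x t ≤ D.M
    · rw [if_pos hc, if_pos ⟨e1.1 hc.1, hc.2⟩]
    · rw [if_neg hc, if_neg (fun h => hc ⟨e1.2 h.1, h.2⟩)]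

theorem Dat.pr_nonneg (D : Dat n Λ) (x : Fin n) (s : Fin n → Option (Option Λ)) :
    0 ≤ D.pr x s := by
  rw [D.pr_eq]
  split_ifs
  · exact mul_nonneg D.c0 (Fv_nonneg D x s)
  · exact le_rfl

theorem Dat.pr_le (D : Dat n Λ) (x : Fin n) (s : Fin n → Option (Option Λ)) :
    D.pr x s ≤ 1 / 4 := by
  rw [D.pr_eq]
  split_ifs with h
  · exact (mul_le_mul_of_nonneg_left h.2 D.c0).trans D.hcM
  · norm_num

/-- The transition kernel. -/
def Dat.ker (D : Dat n Λ) (x : Fin n) (s : Fin n → Option (Option Λ)) :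
    Option (Option Λ) → ℝ
  | none => 1 - 2 * D.pr x s
  | some none => D.pr x s
  | some (some l) => D.pr x s * D.m x l

theorem Dat.ker_adapted (D : Dat n Λ) : Adapted D.ker := by
  intro x s t hst
  have := D.pr_congr x s t hst
  funext σ
  rcases σ with _ | _ | l <;> simp only [Dat.ker, this]

theorem Dat.ker_nonneg (D : Dat n Λ) (x : Fin n) (s : Fin n → Option (Option Λ))
    (σ : Option (Option Λ)) : 0 ≤ D.ker x s σ := by
  have h1 := D.pr_nonneg x s
  have h2 := D.pr_le x s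
  rcases σ with _ | _ | l
  · simp only [Dat.ker]; linarith
  · exact h1
  · exact mul_nonneg h1 (D.m0 x l)

/-- The mean of a test function under the label distribution. -/
def Dat.gam (D : Dat n Λ) (φ : Fin n → Option (Option Λ) → ℝ) (z : Fin n) : ℝ :=
  φ z (some none) + ∑ l, D.m z l * φ z (some (some l))

theorem Dat.ker_sum (D : Dat n Λ) (φ : Fin n → Option (Option Λ) → ℝ) (hφ : ∀ z, φ z none = 1)
    (x : Fin n) (s : Fin n → Option (Option Λ)) :
    ∑ σ, D.ker x s σ * φ x σ = 1 + D.pr x s * (D.gam φ x - 2) := by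
  rw [Fintype.sum_option, Fintype.sum_option]
  simp only [Dat.ker, hφ, Dat.gam]
  have : ∀ l, D.pr x s * D.m x l * φ x (some (some l)) =
      D.pr x s * (D.m x l * φ x (some (some l))) := fun l => by ring
  simp only [this]
  rw [← Finset.mul_sum]
  ring

theorem Dat.ker_one (D : Dat n Λ) (x : Fin n) (s : Fin n → Option (Option Λ)) :
    ∑ σ, D.ker x s σ = 1 := by
  have := D.ker_sum (fun _ _ => 1) (fun _ => rfl) x s
  simp only [mul_one] at this
  rw [this]
  simp only [Dat.gam, mul_one, D.m1]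
  ring

/-- The law of the process. -/
def Dat.P (D : Dat n Λ) (s : Fin n → Option (Option Λ)) : ℝ := ∏ x, D.ker x s (s x)

theorem Dat.P_nonneg (D : Dat n Λ) (s : Fin n → Option (Option Λ)) : 0 ≤ D.P s :=
  Finset.prod_nonneg fun x _ => D.ker_nonneg x s (s x)

theorem Dat.P_sum (D : Dat n Λ) : ∑ s, D.P s = 1 :=
  sum_prod_kernel n D.ker D.ker_adapted D.ker_one

/-- The main tilting inequality. -/
theorem Dat.tilt (D : Dat n Λ) (φ : Fin n → Option (Option Λ) → ℝ) (hφ0 : ∀ z σ, 0 ≤ φ z σ)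
    (hφ : ∀ z, φ z none = 1) (e : Fin n → ℝ)
    (he : ∀ z, D.gam φ z ≤ 2 + e z) (G : (Fin n → Option (Option Λ)) → ℝ) (hG : ∀ s, 0 ≤ G s)
    (B : ℝ) (hB0 : 0 ≤ B) (hB : ∀ s, G s ≠ 0 → Real.exp (∑ z, D.pr z s * e z) * G s ≤ B) :
    ∑ s, D.P s * ((∏ z, φ z (s z)) * G s) ≤ B := by
  have hg0 : ∀ z, 0 ≤ D.gam φ z := by
    intro z
    unfold Dat.gam
    exact add_nonneg (hφ0 _ _) (Finset.sum_nonneg fun l _ => mul_nonneg (D.m0 z l) (hφ0 _ _))
  apply tilt_le D.ker_adapted D.ker_nonneg φ hφ0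
  · intro x s
    rw [D.ker_sum φ hφ]
    have h1 := D.pr_nonneg x s
    have h2 := D.pr_le x s
    nlinarith [hg0 x]
  · intro s
    by_cases hs : G s = 0
    · rw [hs, mul_zero]; exact hB0
    · refine le_trans (mul_le_mul_of_nonneg_right ?_ (hG s)) (hB s hs)
      rw [Real.exp_sum]
      apply Finset.prod_le_prod
      · intro x _
        rw [D.ker_sum φ hφ]
        have h1 := D.pr_nonneg x s
        have h2 := D.pr_le x s
        nlinarith [hg0 x]
      · intro x _
        rw [D.ker_sum φ hφ]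
        have h1 := D.pr_nonneg x s
        have h3 := Real.add_one_le_exp (D.pr x s * e x)
        have h4 : D.pr x s * (D.gam φ x - 2) ≤ D.pr x s * e x :=
          mul_le_mul_of_nonneg_left (by linarith [he x]) h1
        linarith

/-- Extended factor: trivial outside the back-neighbourhood. -/
def Dat.ph (D : Dat n Λ) (v z : Fin n) (σ : Option (Option Λ)) : ℝ :=
  if z ∈ D.N v then fc D.f z v σ else 1

theorem Dat.ph_nonneg (D : Dat n Λ) (v z : Fin n) (σ : Option (Option Λ)) : 0 ≤ D.ph v z σ := by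
  unfold Dat.ph
  split_ifs
  · exact fc_nonneg D z v σ
  · exact zero_le_one

theorem Dat.ph_none (D : Dat n Λ) (v z : Fin n) : D.ph v z none = 1 := by
  unfold Dat.ph
  split_ifs <;> rfl

theorem Dat.prod_ph (D : Dat n Λ) (v : Fin n) (s : Fin n → Option (Option Λ)) :
    ∏ z, D.ph v z (s z) = Fv D.N D.f v s := by
  unfold Dat.ph Fv
  rw [Finset.prod_ite_mem, Finset.univ_inter]

theorem Dat.gam_ph (D : Dat n Λ) (v z : Fin n) : D.gam (D.ph v) z = 2 := by
  unfold Dat.gam Dat.ph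
  by_cases h : z ∈ D.N v
  · simp only [if_pos h, fc, D.f1 v z h, zero_add]
  · simp only [if_neg h, mul_one, D.m1]
    norm_num

/-- The measure tilted by one vertex is a probability measure. -/
theorem Dat.Q_sum (D : Dat n Λ) (v : Fin n) : ∑ s, D.P s * Fv D.N D.f v s = 1 := by
  have := tilt_eq D.ker_adapted (D.ph v) (by
    intro x s
    rw [D.ker_sum (D.ph v) (D.ph_none v), D.gam_ph]
    ring)
  simp only [D.prod_ph] at this
  exact this

/-- Expected value of an adapted function of the outcome at `x`. -/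
theorem Dat.mem_in (D : Dat n Λ) (x : Fin n) :
    ∑ s, D.P s * (if s x = some none then (1:ℝ) else 0) = ∑ s, D.P s * D.pr x s := by
  have := sum_prod_step D.ker_adapted D.ker_one x (fun _ σ => if σ = some none then (1:ℝ) else 0)
    (fun _ _ _ => rfl)
  unfold Dat.P
  rw [this]
  apply Finset.sum_congr rfl
  intro s _
  congr 1
  rw [Fintype.sum_option, Fintype.sum_option]
  simp [Dat.ker]

/-- Independence. -/
theorem Dat.indep (D : Dat n Λ) (s : Fin n → Option (Option Λ)) (h : D.P s ≠ 0) (x : Fin n)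
    (hx : s x = some none) (y : Fin n) (hy : y ∈ D.N x) : s y ≠ some none := by
  intro hcon
  apply h
  apply Finset.prod_eq_zero (Finset.mem_univ x)
  rw [hx]
  show D.pr x s = 0
  rw [D.pr_eq]
  have : Fv D.N D.f x s = 0 := by
    apply Finset.prod_eq_zero hy
    rw [hcon]
    rfl
  rw [this]
  simp

end Pool.Agent.R49.KR
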