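import Pool.Agent.R49.KR.Dyn2
import Pool.Agent.Y415.Frac.H

set_option autoImplicit false

open Finset
open scoped Classical

noncomputable section

namespace Pool.Agent.R49.KR

open Pool.Agent.Y415.Frac (Cl mem_Cl Cl_mono Cl_inter sum_Cl gz gz_nonneg gz_sum_le gz_sum_Cl)

variable {n : ℕ}

/-- Labels: cliques of size at most `R`, and one junk label. -/
abbrev Lab (n R : ℕ) := Option (Σ j : Fin (R + 1), (Fin (j : ℕ) → Fin n))

section

variable (N : Fin n → Finset (Fin n)) (adj : Fin n → Fin n → Prop) (d : ℕ) (η : ℕ → ℝ) (R : ℕ)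

/-- Number of `j`-cliques in the common back-neighbourhood. -/
def ac (j : ℕ) (z v : Fin n) : ℝ := ((Cl adj j (N z ∩ N v)).card : ℝ)

/-- Level of `z` with respect to `v`. -/
def le (z v : Fin n) : ℕ :=
  Nat.findGreatest (fun j => η j * (d:ℝ) ^ j ≤ ac N adj j z v) R

/-- Label distribution. -/
def mm (z : Fin n) : Lab n R → ℝ
  | none => 1 - ∑ p : Σ j : Fin (R + 1), (Fin (j : ℕ) → Fin n),
      gz N d z p.1 p.2 / ((R : ℝ) + 1)
  | some p => gz N d z p.1 p.2 / ((R : ℝ) + 1)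

/-- Label factor. -/
def ff (z v : Fin n) : Lab n R → ℝ
  | none => 0
  | some p => if le N adj d η R z v = (p.1 : ℕ) ∧ p.2 ∈ Cl adj (p.1 : ℕ) (N z ∩ N v) then
      2 * ((R : ℝ) + 1) * (d:ℝ) ^ (p.1 : ℕ) / ac N adj (p.1 : ℕ) z v else 0

/-- Exceptional sets. -/
def EEs (j : ℕ) (x u : Fin n) : Finset (Fin n) :=
  (N x ∩ N u).filter (fun z => (le N adj d η R z u = j ∧ le N adj d η R z x = j) ∧
    η j ^ 3 / (4 * ((R : ℝ) + 1) ^ 2) * (d:ℝ) ^ j < ((Cl adj j (N z ∩ (N x ∩ N u))).card : ℝ))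

variable {N adj d η R}

theorem le_le (z v : Fin n) : le N adj d η R z v ≤ R := Nat.findGreatest_le R

theorem Cl_zero (A : Finset (Fin n)) : (Cl adj 0 A).card = 1 := by
  have : Cl adj 0 A = Finset.univ := by
    ext T
    rw [mem_Cl]
    refine ⟨fun _ => Finset.mem_univ _, fun _ => ⟨fun i => i.elim0, fun i => i.elim0⟩⟩
  rw [this]
  simp

theorem le_spec (hη0 : η 0 = 1) (z v : Fin n) :
    η (le N adj d η R z v) * (d:ℝ) ^ (le N adj d η R z v) ≤ ac N adj (le N adj d η R z v) z v := by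
  have h0 : η 0 * (d:ℝ) ^ 0 ≤ ac N adj 0 z v := by
    rw [hη0, ac, Cl_zero]
    norm_num
  exact Nat.findGreatest_spec (P := fun j => η j * (d:ℝ) ^ j ≤ ac N adj j z v) (Nat.zero_le R) h0

theorem le_lt {z v : Fin n} {j : ℕ} (h1 : le N adj d η R z v < j) (h2 : j ≤ R) :
    ac N adj j z v < η j * (d:ℝ) ^ j := by
  rw [← not_le]
  exact Nat.findGreatest_is_greatest h1 h2

theorem mm_nonneg (hd : 0 < d) (hNd : ∀ x, (N x).card ≤ d) (z : Fin n) (l : Lab n R) :
    0 ≤ mm N d R z l := by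
  rcases l with _ | p
  · simp only [mm]
    rw [Fintype.sum_sigma]
    have : ∀ j : Fin (R + 1), ∑ T : Fin (j : ℕ) → Fin n, gz N d z j T / ((R : ℝ) + 1) ≤
        1 / ((R : ℝ) + 1) := by
      intro j
      rw [← Finset.sum_div]
      have := gz_sum_le hd z (hNd z) (j : ℕ)
      gcongr
    have h2 := Finset.sum_le_sum (fun j (_ : j ∈ (Finset.univ : Finset (Fin (R + 1)))) => this j)
    rw [Finset.sum_const, Finset.card_univ, Fintype.card_fin, nsmul_eq_mul] at h2
    push_cast at h2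
    rw [mul_one_div, div_self (by positivity)] at h2
    linarith
  · simp only [mm]
    have := gz_nonneg N d z p.1 p.2
    positivity

theorem mm_sum (z : Fin n) : ∑ l, mm N d R z l = 1 := by
  rw [Fintype.sum_option]
  simp only [mm]
  ring

theorem ff_nonneg (z v : Fin n) (l : Lab n R) : 0 ≤ ff N adj d η R z v l := by
  rcases l with _ | p
  · exact le_rfl
  · simp only [ff]
    split_ifs
    · unfold ac; positivity
    · exact le_rfl

/-- Sum of a function supported at one level. -/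
theorem sum_level (hd : 0 < d) (z : Fin n) {j : ℕ} (hj : j ≤ R) (TT : Finset (Fin j → Fin n))
    (hT : ∀ T ∈ TT, ∀ i, T i ∈ N z) (K : ℝ) (g : Lab n R → ℝ) (g0 : g none = 0)
    (g1 : ∀ p : Σ j : Fin (R + 1), (Fin (j : ℕ) → Fin n), (p.1 : ℕ) ≠ j → g (some p) = 0)
    (g2 : ∀ T : Fin j → Fin n, g (some ⟨⟨j, Nat.lt_succ_of_le hj⟩, T⟩) = if T ∈ TT then K else 0) :
    ∑ l, mm N d R z l * g l = K * TT.card / (((R : ℝ) + 1) * (d:ℝ) ^ j) := by
  rw [Fintype.sum_option, g0, mul_zero, zero_add, Fintype.sum_sigma,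
    Finset.sum_eq_single (⟨j, Nat.lt_succ_of_le hj⟩ : Fin (R + 1))]
  · have e : ∀ T : Fin j → Fin n, mm N d R z (some ⟨⟨j, Nat.lt_succ_of_le hj⟩, T⟩) *
        g (some ⟨⟨j, Nat.lt_succ_of_le hj⟩, T⟩) =
        if T ∈ TT then K / (((R : ℝ) + 1) * (d:ℝ) ^ j) else 0 := by
      intro T
      rw [g2 T]
      by_cases h : T ∈ TT
      · rw [if_pos h, if_pos h]
        simp only [mm, gz]
        rw [if_pos (hT T h)]
        have : (0:ℝ) < (d:ℝ) ^ j := by positivity
        field_simp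
      · rw [if_neg h, if_neg h, mul_zero]
    refine (Finset.sum_congr rfl fun T _ => e T).trans ?_
    rw [Finset.sum_ite_mem, Finset.univ_inter, Finset.sum_const, nsmul_eq_mul]
    ring
  · intro b _ hb
    apply Finset.sum_eq_zero
    intro T _
    rw [g1 ⟨b, T⟩ (fun h => hb (Fin.ext h)), mul_zero]
  · intro h
    exact absurd (Finset.mem_univ _) h

theorem ff_level {z v : Fin n} {j : ℕ} (hj : j ≤ R) (h : le N adj d η R z v = j)
    (T : Fin j → Fin n) :
    ff N adj d η R z v (some ⟨⟨j, Nat.lt_succ_of_le hj⟩, T⟩) =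
      if T ∈ Cl adj j (N z ∩ N v) then 2 * ((R : ℝ) + 1) * (d:ℝ) ^ j / ac N adj j z v else 0 := by
  simp only [ff]
  by_cases hT : T ∈ Cl adj j (N z ∩ N v)
  · rw [if_pos ⟨h, hT⟩, if_pos hT]
  · rw [if_neg (fun hh => hT hh.2), if_neg hT]

theorem ff_other {z v : Fin n} {p : Σ j : Fin (R + 1), (Fin (j : ℕ) → Fin n)}
    (h : le N adj d η R z v ≠ (p.1 : ℕ)) : ff N adj d η R z v (some p) = 0 := by
  simp only [ff]
  rw [if_neg (fun hh => h hh.1)]

variable (hd : 0 < d) (hη0 : η 0 = 1) (hηp : ∀ j, 0 < η j) (hη1 : ∀ j, η j ≤ 1)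

include hd hη0 hηp in
theorem ac_pos (z v : Fin n) : 0 < ac N adj (le N adj d η R z v) z v :=
  lt_of_lt_of_le (mul_pos (hηp _) (by positivity)) (le_spec hη0 z v)

theorem Cl_sub {j : ℕ} {z v : Fin n} : ∀ T ∈ Cl adj j (N z ∩ N v), ∀ i, T i ∈ N z := by
  intro T hT i
  rw [mem_Cl] at hT
  exact (Finset.mem_inter.1 (hT.1 i)).1

include hd hη0 hηp in
theorem ff_one (z v : Fin n) : ∑ l, mm N d R z l * ff N adj d η R z v l = 2 := by
  have h1 := ac_pos (R := R) (adj := adj) (N := N) hd hη0 hηp z v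
  have hj := le_le (N := N) (adj := adj) (d := d) (η := η) (R := R) z v
  rw [sum_level hd z hj (Cl adj (le N adj d η R z v) (N z ∩ N v)) Cl_sub _ _ rfl
    (fun p hp => ff_other (Ne.symm hp)) (fun T => ff_level hj rfl T)]
  have e : ((Cl adj (le N adj d η R z v) (N z ∩ N v)).card : ℝ) =
    ac N adj (le N adj d η R z v) z v := rfl
  rw [e]
  have : (0:ℝ) < (d:ℝ) ^ (le N adj d η R z v) := by positivity
  field_simp

include hd hη0 hηp in
theorem pair_same {z u x : Fin n} (h : le N adj d η R z x = le N adj d η R z u) :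
    ∑ l, mm N d R z l * (ff N adj d η R z u l * ff N adj d η R z x l) =
      4 * ((R : ℝ) + 1) * (d:ℝ) ^ (le N adj d η R z u) *
        ((Cl adj (le N adj d η R z u) (N z ∩ (N x ∩ N u))).card : ℝ) /
        (ac N adj (le N adj d η R z u) z u * ac N adj (le N adj d η R z u) z x) := by
  have h1 := ac_pos (R := R) (adj := adj) (N := N) hd hη0 hηp z u
  have h2 := ac_pos (R := R) (adj := adj) (N := N) hd hη0 hηp z x
  rw [h] at h2
  have hj := le_le (N := N) (adj := adj) (d := d) (η := η) (R := R) z u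
  generalize hjj : le N adj d η R z u = j at *
  have eC : Cl adj j (N z ∩ N u) ∩ Cl adj j (N z ∩ N x) = Cl adj j (N z ∩ (N x ∩ N u)) := by
    rw [Cl_inter]
    congr 1
    ext w
    simp only [Finset.mem_inter]
    tauto
  rw [sum_level hd z hj (Cl adj j (N z ∩ N u) ∩ Cl adj j (N z ∩ N x))
    (fun T hT => Cl_sub T (Finset.mem_inter.1 hT).1)
    ((2 * ((R : ℝ) + 1) * (d:ℝ) ^ j / ac N adj j z u) *
      (2 * ((R : ℝ) + 1) * (d:ℝ) ^ j / ac N adj j z x)) _ (by simp [ff])
    (fun p hp => by rw [ff_other (z := z) (v := u) (by rw [hjj]; exact Ne.symm hp), zero_mul])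
    (fun T => by
      rw [ff_level hj hjj T, ff_level hj h T]
      by_cases a : T ∈ Cl adj j (N z ∩ N u)
      · by_cases b : T ∈ Cl adj j (N z ∩ N x)
        · rw [if_pos a, if_pos b, if_pos (Finset.mem_inter.2 ⟨a, b⟩)]
        · rw [if_neg b, if_neg (fun hh => b (Finset.mem_inter.1 hh).2), mul_zero]
      · rw [if_neg a, if_neg (fun hh => a (Finset.mem_inter.1 hh).1), zero_mul])]
  rw [eC]
  have : (0:ℝ) < (d:ℝ) ^ j := by positivity
  field_simp
  ring

theorem pair_diff {z u x : Fin n} (h : le N adj d η R z x ≠ le N adj d η R z u) :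
    ∑ l, mm N d R z l * (ff N adj d η R z u l * ff N adj d η R z x l) = 0 := by
  apply Finset.sum_eq_zero
  intro l _
  rcases l with _ | p
  · simp [ff]
  · by_cases a : le N adj d η R z u = (p.1 : ℕ)
    · rw [ff_other (z := z) (v := x) (fun hh => h (hh.trans a.symm)), mul_zero, mul_zero]
    · rw [ff_other a, zero_mul, mul_zero]

end

end Pool.Agent.R49.KR
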