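import Pool.Agent.R49.KR.Static

set_option autoImplicit false

open Finset
open scoped Classical

noncomputable section

namespace Pool.Agent.R49.KR

open Pool.Agent.Y415.Frac (Cl mem_Cl Cl_mono Cl_inter sum_Cl gz gz_nonneg gz_sum_le gz_sum_Cl)

variable {n : ℕ} {N : Fin n → Finset (Fin n)} {adj : Fin n → Fin n → Prop} {d : ℕ}
  {η : ℕ → ℝ} {R : ℕ}

section

variable (hd : 0 < d) (hη0 : η 0 = 1) (hηp : ∀ j, 0 < η j) (hη1 : ∀ j, η j ≤ 1)

theorem EEs_sub (j : ℕ) (x u : Fin n) : EEs N adj d η R j x u ⊆ N x ∩ N u :=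
  Finset.filter_subset _ _

theorem EEs_lev (j : ℕ) (x u : Fin n) : ∀ z ∈ EEs N adj d η R j x u,
    le N adj d η R z u = j ∧ le N adj d η R z x = j := by
  intro z hz
  exact (Finset.mem_filter.1 hz).2.1

theorem Cl_le_ac (j : ℕ) (z x u : Fin n) :
    ((Cl adj j (N z ∩ (N x ∩ N u))).card : ℝ) ≤ ac N adj j z u ∧
    ((Cl adj j (N z ∩ (N x ∩ N u))).card : ℝ) ≤ ac N adj j z x := by
  unfold ac
  constructor
  · exact_mod_cast Finset.card_le_card (Cl_mono (Finset.inter_subset_inter_left
      Finset.inter_subset_right))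
  · exact_mod_cast Finset.card_le_card (Cl_mono (Finset.inter_subset_inter_left
      Finset.inter_subset_left))

/-- exponent function -/
def ee2 (N : Fin n → Finset (Fin n)) (adj : Fin n → Fin n → Prop) (d : ℕ) (η : ℕ → ℝ) (R : ℕ)
    (x u z : Fin n) : ℝ :=
  ∑ j ∈ Finset.range (R + 1), (if z ∈ EEs N adj d η R j x u then
    2 * (2 * ((R:ℝ) + 1) / η j) ^ 2 else 0)

theorem ee2_nonneg (x u z : Fin n) : 0 ≤ ee2 N adj d η R x u z := by
  apply Finset.sum_nonneg
  intro j _
  split_ifs <;> positivity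

theorem ee2_ge {x u z : Fin n} {j : ℕ} (hj : j ≤ R) (h : z ∈ EEs N adj d η R j x u) :
    2 * (2 * ((R:ℝ) + 1) / η j) ^ 2 ≤ ee2 N adj d η R x u z := by
  unfold ee2
  have := Finset.single_le_sum (f := fun j => (if z ∈ EEs N adj d η R j x u then
    2 * (2 * ((R:ℝ) + 1) / η j) ^ 2 else 0)) (s := Finset.range (R + 1)) (by
      intro i _
      split_ifs <;> positivity) (Finset.mem_range.2 (Nat.lt_succ_of_le hj))
  rw [if_pos h] at this
  exact this

include hd hη0 hηp hη1 in
theorem pair_bound {z u x : Fin n} (hz : z ∈ N x ∩ N u) :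
    ∑ l, mm N d R z l * (ff N adj d η R z u l * ff N adj d η R z x l) ≤
      2 + ee2 N adj d η R x u z := by
  by_cases h : le N adj d η R z x = le N adj d η R z u
  · have h1 := ac_pos (R := R) (adj := adj) (N := N) hd hη0 hηp z u
    have h2 := ac_pos (R := R) (adj := adj) (N := N) hd hη0 hηp z x
    have hs1 := le_spec (R := R) (adj := adj) (N := N) (d := d) hη0 z u
    have hs2 := le_spec (R := R) (adj := adj) (N := N) (d := d) hη0 z x
    have hR : (0:ℝ) ≤ (R:ℝ) := Nat.cast_nonneg _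
    rw [pair_same hd hη0 hηp h]
    rw [h] at h2 hs2
    have hj := le_le (N := N) (adj := adj) (d := d) (η := η) (R := R) z u
    have hc := Cl_le_ac (adj := adj) (N := N) (le N adj d η R z u) z x u
    by_cases hE : z ∈ EEs N adj d η R (le N adj d η R z u) x u
    · have h3 := ee2_ge hj hE
      generalize le N adj d η R z u = j at *
      have hη := hηp j
      have hη' := hη1 j
      have hdj : (0:ℝ) < (d:ℝ) ^ j := by positivity
      have h4 : 4 * ((R:ℝ) + 1) * (d:ℝ) ^ j * ((Cl adj j (N z ∩ (N x ∩ N u))).card : ℝ) /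
          (ac N adj j z u * ac N adj j z x) ≤ 4 * ((R:ℝ) + 1) / η j := by
        rw [div_le_div_iff₀ (by positivity) hη]
        calc 4 * ((R:ℝ) + 1) * (d:ℝ) ^ j * ((Cl adj j (N z ∩ (N x ∩ N u))).card : ℝ) * η j
            = 4 * ((R:ℝ) + 1) * ((η j * (d:ℝ) ^ j) *
                ((Cl adj j (N z ∩ (N x ∩ N u))).card : ℝ)) := by ring
          _ ≤ 4 * ((R:ℝ) + 1) * (ac N adj j z x * ac N adj j z u) := by
              apply mul_le_mul_of_nonneg_left _ (by positivity)
              exact mul_le_mul hs2 hc.1 (Nat.cast_nonneg _) h2.le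
          _ = _ := by ring
      have h5 : 4 * ((R:ℝ) + 1) / η j ≤ 2 * (2 * ((R:ℝ) + 1) / η j) ^ 2 := by
        rw [div_pow, mul_div_assoc', div_le_div_iff₀ hη (by positivity)]
        have : η j ^ 2 ≤ η j := by nlinarith
        nlinarith [mul_nonneg hR hη.le, mul_nonneg (mul_nonneg hR hR) hη.le, mul_nonneg hR hR]
      linarith
    · have h3 := ee2_nonneg (N := N) (adj := adj) (d := d) (η := η) (R := R) x u z
      have h4 : ((Cl adj (le N adj d η R z u) (N z ∩ (N x ∩ N u))).card : ℝ) ≤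
          η (le N adj d η R z u) ^ 3 / (4 * ((R : ℝ) + 1) ^ 2) *
            (d:ℝ) ^ (le N adj d η R z u) := by
        by_contra hcon
        push Not at hcon
        apply hE
        unfold EEs
        rw [Finset.mem_filter]
        exact ⟨hz, ⟨rfl, h⟩, hcon⟩
      generalize le N adj d η R z u = j at *
      have hη := hηp j
      have hη' := hη1 j
      have hdj : (0:ℝ) < (d:ℝ) ^ j := by positivity
      have h5 : 4 * ((R:ℝ) + 1) * (d:ℝ) ^ j * ((Cl adj j (N z ∩ (N x ∩ N u))).card : ℝ) /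
          (ac N adj j z u * ac N adj j z x) ≤ 2 := by
        rw [div_le_iff₀ (by positivity)]
        calc 4 * ((R:ℝ) + 1) * (d:ℝ) ^ j * ((Cl adj j (N z ∩ (N x ∩ N u))).card : ℝ)
            ≤ 4 * ((R:ℝ) + 1) * (d:ℝ) ^ j * (η j ^ 3 / (4 * ((R : ℝ) + 1) ^ 2) *
            (d:ℝ) ^ j) := mul_le_mul_of_nonneg_left h4 (by positivity)
          _ = (η j / ((R:ℝ) + 1)) * ((η j * (d:ℝ) ^ j) * (η j * (d:ℝ) ^ j)) := by
              field_simp
          _ ≤ 1 * (ac N adj j z u * ac N adj j z x) := by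
              apply mul_le_mul
              · rw [div_le_one (by positivity)]
                linarith
              · exact mul_le_mul hs1 hs2 (by positivity) h1.le
              · positivity
              · norm_num
          _ ≤ _ := by nlinarith [mul_pos h1 h2]
      linarith
  · rw [pair_diff h]
    have := ee2_nonneg (N := N) (adj := adj) (d := d) (η := η) (R := R) x u z
    linarith

include hd hη0 hηp in
theorem self_bound (z v : Fin n) :
    ∑ l, mm N d R z l * (ff N adj d η R z v l * ff N adj d η R z v l) ≤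
      2 * (2 * ((R:ℝ) + 1) / η (le N adj d η R z v)) := by
  have h1 := ac_pos (R := R) (adj := adj) (N := N) hd hη0 hηp z v
  have hs1 := le_spec (R := R) (adj := adj) (N := N) (d := d) hη0 z v
  rw [pair_same hd hη0 hηp rfl]
  have e : ((Cl adj (le N adj d η R z v) (N z ∩ (N v ∩ N v))).card : ℝ) =
    ac N adj (le N adj d η R z v) z v := by rw [Finset.inter_self]; rfl
  rw [e]
  generalize le N adj d η R z v = j at *
  have hη := hηp j
  have hdj : (0:ℝ) < (d:ℝ) ^ j := by positivity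
  rw [mul_div_assoc', div_le_div_iff₀ (by positivity) hη]
  nlinarith [mul_le_mul_of_nonneg_left hs1 (show (0:ℝ) ≤ 4 * ((R:ℝ) + 1) * ac N adj j z v by
    positivity)]

include hd hη0 hηp in
theorem triple_same {z u x y : Fin n} (h : le N adj d η R z x = le N adj d η R z u)
    (h' : le N adj d η R z y = le N adj d η R z u) :
    ∑ l, mm N d R z l * (ff N adj d η R z u l * ff N adj d η R z x l * ff N adj d η R z y l) ≤
      8 * ((R : ℝ) + 1) ^ 2 * ((d:ℝ) ^ (le N adj d η R z u)) ^ 2 *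
        ((Cl adj (le N adj d η R z u) (N z ∩ (N x ∩ N u))).card : ℝ) /
        (ac N adj (le N adj d η R z u) z u * ac N adj (le N adj d η R z u) z x *
          ac N adj (le N adj d η R z u) z y) := by
  have h1 := ac_pos (R := R) (adj := adj) (N := N) hd hη0 hηp z u
  have h2 := ac_pos (R := R) (adj := adj) (N := N) hd hη0 hηp z x
  have h3 := ac_pos (R := R) (adj := adj) (N := N) hd hη0 hηp z y
  rw [h] at h2
  rw [h'] at h3
  have hj := le_le (N := N) (adj := adj) (d := d) (η := η) (R := R) z u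
  generalize hjj : le N adj d η R z u = j at *
  have eC : Cl adj j (N z ∩ N u) ∩ Cl adj j (N z ∩ N x) = Cl adj j (N z ∩ (N x ∩ N u)) := by
    rw [Cl_inter]
    congr 1
    ext w
    simp only [Finset.mem_inter]
    tauto
  rw [sum_level hd z hj (Cl adj j (N z ∩ N u) ∩ Cl adj j (N z ∩ N x) ∩ Cl adj j (N z ∩ N y))
    (fun T hT => Cl_sub T (Finset.mem_inter.1 (Finset.mem_inter.1 hT).1).1)
    ((2 * ((R : ℝ) + 1) * (d:ℝ) ^ j / ac N adj j z u) *
      (2 * ((R : ℝ) + 1) * (d:ℝ) ^ j / ac N adj j z x) *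
      (2 * ((R : ℝ) + 1) * (d:ℝ) ^ j / ac N adj j z y)) _ (by simp [ff])
    (fun p hp => by rw [ff_other (z := z) (v := u) (by rw [hjj]; exact Ne.symm hp), zero_mul,
      zero_mul])
    (fun T => by
      rw [ff_level hj hjj T, ff_level hj h T, ff_level hj h' T]
      by_cases a : T ∈ Cl adj j (N z ∩ N u)
      · by_cases b : T ∈ Cl adj j (N z ∩ N x)
        · by_cases c : T ∈ Cl adj j (N z ∩ N y)
          · rw [if_pos a, if_pos b, if_pos c,
              if_pos (Finset.mem_inter.2 ⟨Finset.mem_inter.2 ⟨a, b⟩, c⟩)]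
          · rw [if_neg c, if_neg (fun hh => c (Finset.mem_inter.1 hh).2), mul_zero]
        · rw [if_neg b, if_neg (fun hh => b (Finset.mem_inter.1 (Finset.mem_inter.1 hh).1).2),
            mul_zero, zero_mul]
      · rw [if_neg a, if_neg (fun hh => a (Finset.mem_inter.1 (Finset.mem_inter.1 hh).1).1),
          zero_mul, zero_mul])]
  have hcard : ((Cl adj j (N z ∩ N u) ∩ Cl adj j (N z ∩ N x) ∩ Cl adj j (N z ∩ N y)).card : ℝ) ≤
      ((Cl adj j (N z ∩ (N x ∩ N u))).card : ℝ) := by
    rw [← eC]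
    exact_mod_cast Finset.card_le_card Finset.inter_subset_left
  have hdj : (0:ℝ) < (d:ℝ) ^ j := by positivity
  calc _ ≤ (2 * ((R : ℝ) + 1) * (d:ℝ) ^ j / ac N adj j z u) *
      (2 * ((R : ℝ) + 1) * (d:ℝ) ^ j / ac N adj j z x) *
      (2 * ((R : ℝ) + 1) * (d:ℝ) ^ j / ac N adj j z y) *
      ((Cl adj j (N z ∩ (N x ∩ N u))).card : ℝ) / (((R : ℝ) + 1) * (d:ℝ) ^ j) := by
        gcongr
    _ = _ := by
        field_simp
        ring

theorem triple_diff {z u x y : Fin n} (h : ¬ (le N adj d η R z x = le N adj d η R z u ∧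
    le N adj d η R z y = le N adj d η R z u)) :
    ∑ l, mm N d R z l * (ff N adj d η R z u l * ff N adj d η R z x l * ff N adj d η R z y l)
      = 0 := by
  apply Finset.sum_eq_zero
  intro l _
  rcases l with _ | p
  · simp [ff]
  · by_cases a : le N adj d η R z u = (p.1 : ℕ)
    · by_cases b : le N adj d η R z x = (p.1 : ℕ)
      · by_cases c : le N adj d η R z y = (p.1 : ℕ)
        · exact absurd ⟨b.trans a.symm, c.trans a.symm⟩ h
        · rw [ff_other c, mul_zero, mul_zero]
      · rw [ff_other b, mul_zero, zero_mul, mul_zero]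
    · rw [ff_other a, zero_mul, zero_mul, mul_zero]

include hd hη0 hηp in
theorem triple_bound {z u x y : Fin n} (hz : z ∈ N x ∩ N u) :
    ∑ l, mm N d R z l * (ff N adj d η R z u l * ff N adj d η R z x l * ff N adj d η R z y l) ≤
      2 + ee2 N adj d η R x u z := by
  by_cases h : le N adj d η R z x = le N adj d η R z u ∧
    le N adj d η R z y = le N adj d η R z u
  · have h1 := ac_pos (R := R) (adj := adj) (N := N) hd hη0 hηp z u
    have h2 := ac_pos (R := R) (adj := adj) (N := N) hd hη0 hηp z x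
    have h3 := ac_pos (R := R) (adj := adj) (N := N) hd hη0 hηp z y
    have hs1 := le_spec (R := R) (adj := adj) (N := N) (d := d) hη0 z u
    have hs2 := le_spec (R := R) (adj := adj) (N := N) (d := d) hη0 z x
    have hs3 := le_spec (R := R) (adj := adj) (N := N) (d := d) hη0 z y
    have hR : (0:ℝ) ≤ (R:ℝ) := Nat.cast_nonneg _
    refine (triple_same hd hη0 hηp h.1 h.2).trans ?_
    rw [h.1] at h2 hs2
    rw [h.2] at h3 hs3
    have hj := le_le (N := N) (adj := adj) (d := d) (η := η) (R := R) z u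
    have hc := Cl_le_ac (adj := adj) (N := N) (le N adj d η R z u) z x u
    by_cases hE : z ∈ EEs N adj d η R (le N adj d η R z u) x u
    · have h4 := ee2_ge hj hE
      generalize le N adj d η R z u = j at *
      have hη := hηp j
      have hdj : (0:ℝ) < (d:ℝ) ^ j := by positivity
      have h5 : 8 * ((R : ℝ) + 1) ^ 2 * ((d:ℝ) ^ j) ^ 2 *
          ((Cl adj j (N z ∩ (N x ∩ N u))).card : ℝ) /
          (ac N adj j z u * ac N adj j z x * ac N adj j z y) ≤
          2 * (2 * ((R:ℝ) + 1) / η j) ^ 2 := by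
        rw [div_pow, mul_div_assoc', div_le_div_iff₀ (by positivity) (by positivity)]
        calc 8 * ((R : ℝ) + 1) ^ 2 * ((d:ℝ) ^ j) ^ 2 *
              ((Cl adj j (N z ∩ (N x ∩ N u))).card : ℝ) * η j ^ 2
            = 8 * ((R : ℝ) + 1) ^ 2 * (((Cl adj j (N z ∩ (N x ∩ N u))).card : ℝ) *
              (η j * (d:ℝ) ^ j) * (η j * (d:ℝ) ^ j)) := by ring
          _ ≤ 8 * ((R : ℝ) + 1) ^ 2 * (ac N adj j z u * ac N adj j z x * ac N adj j z y) := by
              apply mul_le_mul_of_nonneg_left _ (by positivity)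
              apply mul_le_mul _ hs3 (by positivity) (by positivity)
              exact mul_le_mul hc.1 hs2 (by positivity) h1.le
          _ = _ := by ring
      linarith
    · have h4 := ee2_nonneg (N := N) (adj := adj) (d := d) (η := η) (R := R) x u z
      have h5 : ((Cl adj (le N adj d η R z u) (N z ∩ (N x ∩ N u))).card : ℝ) ≤
          η (le N adj d η R z u) ^ 3 / (4 * ((R : ℝ) + 1) ^ 2) *
            (d:ℝ) ^ (le N adj d η R z u) := by
        by_contra hcon
        push Not at hcon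
        apply hE
        unfold EEs
        rw [Finset.mem_filter]
        exact ⟨hz, ⟨rfl, h.1⟩, hcon⟩
      generalize le N adj d η R z u = j at *
      have hη := hηp j
      have hdj : (0:ℝ) < (d:ℝ) ^ j := by positivity
      have h6 : 8 * ((R : ℝ) + 1) ^ 2 * ((d:ℝ) ^ j) ^ 2 *
          ((Cl adj j (N z ∩ (N x ∩ N u))).card : ℝ) /
          (ac N adj j z u * ac N adj j z x * ac N adj j z y) ≤ 2 := by
        rw [div_le_iff₀ (by positivity)]
        calc 8 * ((R : ℝ) + 1) ^ 2 * ((d:ℝ) ^ j) ^ 2 *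
              ((Cl adj j (N z ∩ (N x ∩ N u))).card : ℝ)
            ≤ 8 * ((R : ℝ) + 1) ^ 2 * ((d:ℝ) ^ j) ^ 2 * (η j ^ 3 / (4 * ((R : ℝ) + 1) ^ 2) *
            (d:ℝ) ^ j) := mul_le_mul_of_nonneg_left h5 (by positivity)
          _ = 2 * ((η j * (d:ℝ) ^ j) * (η j * (d:ℝ) ^ j) * (η j * (d:ℝ) ^ j)) := by
              field_simp
              ring
          _ ≤ 2 * (ac N adj j z u * ac N adj j z x * ac N adj j z y) := by
              apply mul_le_mul_of_nonneg_left _ (by norm_num)
              apply mul_le_mul _ hs3 (by positivity) (by positivity)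
              exact mul_le_mul hs1 hs2 (by positivity) h1.le
      linarith
  · rw [triple_diff h]
    have := ee2_nonneg (N := N) (adj := adj) (d := d) (η := η) (R := R) x u z
    linarith

include hd hηp in
/-- Size of the exceptional sets. -/
theorem EEs_card (hadj : ∀ z y, y ∈ N z → adj z y ∧ adj y z)
    (hK : ∀ u, ∀ x ∈ N u, Cl adj (R + 1) (N x ∩ N u) = ∅)
    {u x : Fin n} (hx : x ∈ N u) {J : ℕ} (hl : le N adj d η R x u ≤ J) (hJ : J ≤ R) :
    ((EEs N adj d η R J x u).card : ℝ) ≤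
      (4 * ((R : ℝ) + 1) ^ 2 * η (J + 1) / η J ^ 3) * d := by
  have hη := hηp J
  have hη' := hηp (J + 1)
  have hdj : (0:ℝ) < (d:ℝ) ^ J := by positivity
  have hd0 : (0:ℝ) < (d:ℝ) := by positivity
  have hR : (0:ℝ) ≤ (R:ℝ) := Nat.cast_nonneg _
  have h1 : ((EEs N adj d η R J x u).card : ℝ) *
      (η J ^ 3 / (4 * ((R : ℝ) + 1) ^ 2) * (d:ℝ) ^ J) ≤
      ((Cl adj (J + 1) (N x ∩ N u)).card : ℝ) := by
    calc ((EEs N adj d η R J x u).card : ℝ) *
      (η J ^ 3 / (4 * ((R : ℝ) + 1) ^ 2) * (d:ℝ) ^ J)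
        = ∑ _z ∈ EEs N adj d η R J x u, (η J ^ 3 / (4 * ((R : ℝ) + 1) ^ 2) * (d:ℝ) ^ J) := by
          rw [Finset.sum_const, nsmul_eq_mul]
      _ ≤ ∑ z ∈ EEs N adj d η R J x u, ((Cl adj J (N z ∩ (N x ∩ N u))).card : ℝ) := by
          apply Finset.sum_le_sum
          intro z hz
          exact (Finset.mem_filter.1 hz).2.2.le
      _ ≤ ∑ z ∈ N x ∩ N u, ((Cl adj J (N z ∩ (N x ∩ N u))).card : ℝ) := by
          apply Finset.sum_le_sum_of_subset_of_nonneg (EEs_sub J x u)
          intro z _ _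
          exact Nat.cast_nonneg _
      _ ≤ _ := by exact_mod_cast sum_Cl hadj (N x ∩ N u)
  have h2 : ((Cl adj (J + 1) (N x ∩ N u)).card : ℝ) ≤ η (J + 1) * (d:ℝ) ^ (J + 1) := by
    rcases Nat.lt_or_ge J R with h | h
    · exact (le_lt (N := N) (adj := adj) (z := x) (v := u) (Nat.lt_succ_of_le hl) h).le
    · have : J = R := le_antisymm hJ h
      subst this
      rw [hK u x hx]
      simp only [Finset.card_empty, Nat.cast_zero]
      positivity
  have h3 := h1.trans h2
  rw [pow_succ (d:ℝ) J] at h3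
  have h4 : ((EEs N adj d η R J x u).card : ℝ) * (η J ^ 3 / (4 * ((R : ℝ) + 1) ^ 2)) ≤
      η (J + 1) * d := by
    have : ((EEs N adj d η R J x u).card : ℝ) * (η J ^ 3 / (4 * ((R : ℝ) + 1) ^ 2)) *
      (d:ℝ) ^ J ≤ η (J + 1) * d * (d:ℝ) ^ J := by linarith
    exact le_of_mul_le_mul_right this hdj
  rw [mul_div_assoc', div_le_iff₀ (by positivity)] at h4
  rw [div_mul_eq_mul_div, le_div_iff₀ (by positivity)]
  linarith

end

end Pool.Agent.R49.KR
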